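import Pool.Agent.KS6_29.NC.Schur

/-! # The local choice of a completely positive map, for a normalizer -/

set_option autoImplicit false

open scoped CStarAlgebra ComplexOrder ComplexStarModule InnerProductSpace
open ContinuousLinearMap
open Pool.Agent.W661.Nrm

namespace Pool.Agent.KS6_29.NC

variable {A B : Type*} [CStarAlgebra A] [PartialOrder A] [StarOrderedRing A]
  [CStarAlgebra B] [PartialOrder B] [StarOrderedRing B]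
  {ι : A →⋆ₐ[ℂ] B} {E : B →L[ℂ] A}
  {H : Type*} [NormedAddCommGroup H] [InnerProductSpace ℂ H] [CompleteSpace H]

/-- the expectation as a compression -/
theorem exists_comp_expect (h : IsFaithfulCondExp ι E) (φ : A →ₚ[ℂ] ℂ) :
    ∃ Θ : B →ₗ[ℂ] (φ.GNS →L[ℂ] φ.GNS), Comp ι φ.gnsStarAlgHom Θ ∧
      ∀ b, Θ b = φ.gnsStarAlgHom (E b) := by
  let ψ : B →ₚ[ℂ] ℂ := PositiveLinearMap.mk₀ ((φ : A →ₗ[ℂ] ℂ) ∘ₗ (E : B →ₗ[ℂ] A)) (by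
    intro x hx
    exact φ.map_nonneg (h.E_nonneg hx))
  have hψ : ∀ b, ψ b = φ (E b) := fun b => rfl
  obtain ⟨Θ, hΘ, hΘ2⟩ := exists_comp ι φ.gnsStarAlgHom (om φ) (gns_dense φ) ψ (by
    intro a
    rw [hψ, h.E_ι, gns_inner])
  refine ⟨Θ, hΘ, fun b => ?_⟩
  have key : ∀ x y : φ.GNS, ⟪x, Θ b y⟫_ℂ = ⟪x, φ.gnsStarAlgHom (E b) y⟫_ℂ := by
    intro x y
    refine (gns_dense φ).induction_on₂
      (p := fun x y => ⟪x, Θ b y⟫_ℂ = ⟪x, φ.gnsStarAlgHom (E b) y⟫_ℂ) ?_ ?_ x y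
    · exact isClosed_eq (by fun_prop) (by fun_prop)
    · intro c a
      rw [pi_inner, pi_inner, ← mul_apply_eq_comp (Θ b), ← mul_apply_eq_comp (φ.gnsStarAlgHom (E b)),
        ← mul_apply_eq_comp (φ.gnsStarAlgHom (star c)),
        ← mul_apply_eq_comp (φ.gnsStarAlgHom (star c)), ← map_mul, ← map_mul, ← hΘ.right,
        ← hΘ.left, hΘ2, hψ, gns_inner, ← mul_assoc, ← mul_assoc, h.E_bimod]
  ext y
  exact ext_inner_left ℂ fun x => key x y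

/-- the local choice -/
theorem local_choice (h : IsFaithfulCondExp ι E) {y : B} (hy : IsNormalizer ι y) (hEy : E y = 0)
    {e e1 : A} (he1 : e1 ∈ Dd e) (h0 : 0 ≤ e1) (h1 : ‖e1‖ ≤ 1) {ε0 : ℝ} (hε0 : 0 < ε0)
    (hfail : ∀ d ∈ Dd e, 0 ≤ d → ε0 * (‖d‖ * ‖d‖) ≤ ‖ι d * y * ι d‖)
    {φ : A →ₚ[ℂ] ℂ} (hφ : Pure φ) :
    ∃ μ : ℂ, ‖μ‖ = 1 ∧ ∃ Θ : B →ₗ[ℂ] (φ.GNS →L[ℂ] φ.GNS), Comp ι φ.gnsStarAlgHom Θ ∧
      ∀ η : φ.GNS, φ.gnsStarAlgHom e1 η = η →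
        (ε0 / 64) ^ 2 / (‖y‖ + 1) * ‖η‖ ^ 2 ≤ (μ * ⟪η, Θ y η⟫_ℂ).re := by
  set π := φ.gnsStarAlgHom with hπ
  have hirr : Irr π := irr_of_pure hφ
  set c0 : ℝ := ε0 / 64 with hc0
  have hc0p : 0 < c0 := by positivity
  have hy0 : 0 ≤ ‖y‖ := norm_nonneg y
  -- compressions with large values
  have hlarge : ∀ η : φ.GNS, ‖η‖ = 1 → π e1 η = η → ∃ Θ : B →ₗ[ℂ] (φ.GNS →L[ℂ] φ.GNS),
      Comp ι π Θ ∧ c0 ≤ ‖⟪η, Θ y η⟫_ℂ‖ := by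
    intro η hη hη1
    have hη0 : η ≠ 0 := by
      rintro rfl
      rw [norm_zero] at hη
      exact zero_ne_one hη
    have hv1 : vec π η 1 = 1 := by
      rw [vec_apply, map_one, one_apply_eq_self, inner_self_eq_norm_sq_to_K, hη]
      simp
    have hve : vec π η e1 = 1 := by
      rw [vec_apply, hη1, inner_self_eq_norm_sq_to_K, hη]
      simp
    obtain ⟨ψ, hψ1, hψ2⟩ := h.exists_ext hEy he1 h0 h1 hε0 hfail (vec π η) hv1 hve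
    obtain ⟨Θ, hΘ, hΘ2⟩ := exists_comp ι π η (cyclic_of_irr hirr hη0) ψ (fun a => by
      rw [hψ1, vec_apply])
    exact ⟨Θ, hΘ, by rw [hΘ2]; exact hψ2⟩
  by_cases hex : ∃ η : φ.GNS, ‖η‖ = 1 ∧ π e1 η = η
  · obtain ⟨η0, hη0, hη01⟩ := hex
    obtain ⟨Θ0, hΘ0, hval0⟩ := hlarge η0 hη0 hη01
    set T0 : φ.GNS →L[ℂ] φ.GNS := Θ0 y with hT0
    have hbd : ∀ (T : φ.GNS →L[ℂ] φ.GNS) (η : φ.GNS), ‖η‖ = 1 → ‖⟪η, T η⟫_ℂ‖ ≤ ‖T‖ := by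
      intro T η hη
      refine (norm_inner_le_norm _ _).trans ?_
      rw [hη, one_mul]
      refine (T.le_opNorm η).trans ?_
      rw [hη, mul_one]
    have hT0n : c0 ≤ ‖T0‖ := hval0.trans (hbd T0 η0 hη0)
    have hT00 : T0 ≠ 0 := by
      intro h2
      rw [h2, norm_zero] at hT0n
      linarith
    set c1 : ℝ := c0 ^ 2 / (‖y‖ + 1) with hc1
    have hc1p : 0 < c1 := by positivity
    have hall : ∀ η : φ.GNS, ‖η‖ = 1 → π e1 η = η → c1 ≤ ‖⟪η, Θ0 y η⟫_ℂ‖ := by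
      intro η hη hη1
      obtain ⟨Θ, hΘ, hval⟩ := hlarge η hη hη1
      obtain ⟨c, hc⟩ := proportional hirr hΘ hΘ0 hy hT00
      have h2 : ⟪η, Θ y η⟫_ℂ = c * ⟪η, Θ0 y η⟫_ℂ := by
        rw [hc, smul_apply, inner_smul_right]
      have h3 : ‖c‖ * ‖T0‖ ≤ ‖y‖ := by
        rw [hT0, ← norm_smul, ← hc]
        exact hΘ.norm_le _
      rw [h2, norm_mul] at hval
      have h4 : ‖c‖ * c0 ≤ ‖y‖ := by
        calc ‖c‖ * c0 ≤ ‖c‖ * ‖T0‖ := by gcongr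
          _ ≤ ‖y‖ := h3
      rw [hc1, div_le_iff₀ (by positivity)]
      set X := ‖⟪η, Θ0 y η⟫_ℂ‖ with hX
      have hX0 : 0 ≤ X := norm_nonneg _
      calc c0 ^ 2 = c0 * c0 := sq c0
        _ ≤ c0 * (‖c‖ * X) := by gcongr
        _ = (‖c‖ * c0) * X := by ring
        _ ≤ ‖y‖ * X := by gcongr
        _ ≤ X * (‖y‖ + 1) := by nlinarith
    -- the numerical range of the compression
    set K : Submodule ℂ φ.GNS := LinearMap.ker ((π e1 - 1 : φ.GNS →L[ℂ] φ.GNS) : φ.GNS →ₗ[ℂ] φ.GNS)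
      with hK
    have hKm : ∀ x : φ.GNS, x ∈ K ↔ π e1 x = x := by
      intro x
      rw [hK, LinearMap.mem_ker]
      show (π e1 - 1 : φ.GNS →L[ℂ] φ.GNS) x = 0 ↔ _
      rw [sub_apply, one_apply_eq_self, sub_eq_zero]
    have hKc : IsClosed (K : Set φ.GNS) := (π e1 - 1 : φ.GNS →L[ℂ] φ.GNS).isClosed_ker
    have : CompleteSpace K := hKc.completeSpace_coe
    let C : K →L[ℂ] K := adjoint K.subtypeL ∘L (Θ0 y) ∘L K.subtypeL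
    have hC : ∀ x : K, ⟪x, C x⟫_ℂ = ⟪(x : φ.GNS), Θ0 y x⟫_ℂ := by
      intro x
      show ⟪x, adjoint K.subtypeL (Θ0 y x)⟫_ℂ = _
      rw [adjoint_inner_right]
      rfl
    obtain ⟨μ, hμ, hμ2⟩ := exists_phase _ (H640R2.PhaseMu.toeplitz_hausdorff C)
      ⟨⟪(⟨η0, (hKm η0).2 hη01⟩ : K), C ⟨η0, (hKm η0).2 hη01⟩⟫_ℂ, ⟨η0, (hKm η0).2 hη01⟩, hη0, rfl⟩
      hc1p (by
        rintro z ⟨x, hx, rfl⟩
        rw [hC]
        exact hall x hx ((hKm x).1 x.2))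
    refine ⟨μ, hμ, Θ0, hΘ0, fun η hη => ?_⟩
    rcases eq_or_ne η 0 with h2 | h2
    · rw [h2]
      simp
    · have hn : 0 < ‖η‖ := norm_pos_iff.2 h2
      set x : φ.GNS := ((‖η‖⁻¹ : ℝ) : ℂ) • η with hx
      have hx1 : ‖x‖ = 1 := by
        rw [hx, norm_smul, Complex.norm_real, norm_inv, norm_norm, inv_mul_cancel₀ hn.ne']
      have hxK : x ∈ K := by
        rw [hKm, hx, map_smul, hη]
      have h3 := hμ2 _ ⟨⟨x, hxK⟩, hx1, rfl⟩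
      rw [hC] at h3
      have h4 : ⟪x, Θ0 y x⟫_ℂ = (((‖η‖⁻¹ * ‖η‖⁻¹ : ℝ)) : ℂ) * ⟪η, Θ0 y η⟫_ℂ := by
        rw [hx, map_smul, inner_smul_left, inner_smul_right, Complex.conj_ofReal, ← mul_assoc]
        push_cast
        rfl
      have h5 : (μ * ⟪x, Θ0 y x⟫_ℂ).re = (‖η‖⁻¹ * ‖η‖⁻¹) * (μ * ⟪η, Θ0 y η⟫_ℂ).re := by
        rw [h4, mul_left_comm, Complex.re_ofReal_mul]
      have h6 : c1 ≤ (‖η‖⁻¹ * ‖η‖⁻¹) * (μ * ⟪η, Θ0 y η⟫_ℂ).re := by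
        rw [← h5]
        exact h3
      have h7 := mul_le_mul_of_nonneg_left h6 (by positivity : 0 ≤ ‖η‖ ^ 2)
      have h8 : ‖η‖ ^ 2 * ((‖η‖⁻¹ * ‖η‖⁻¹) * (μ * ⟪η, Θ0 y η⟫_ℂ).re) =
          (μ * ⟪η, Θ0 y η⟫_ℂ).re := by
        field_simp
      rw [h8] at h7
      rw [mul_comm]
      exact h7
  · obtain ⟨Θ, hΘ, -⟩ := exists_comp_expect h φ
    refine ⟨1, by simp, Θ, hΘ, fun η hη => ?_⟩
    have h2 : η = 0 := by
      by_contra h3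
      have hn : 0 < ‖η‖ := norm_pos_iff.2 h3
      refine hex ⟨((‖η‖⁻¹ : ℝ) : ℂ) • η, ?_, ?_⟩
      · rw [norm_smul, Complex.norm_real, norm_inv, norm_norm, inv_mul_cancel₀ hn.ne']
      · rw [map_smul, hη]
    rw [h2]
    simp

end Pool.Agent.KS6_29.NC
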