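import Mathlib

/-! # Inclusions of C*-algebras graded by orthogonal bimodules of normalizers: definitions -/

set_option autoImplicit false

open scoped CStarAlgebra ComplexOrder

namespace Pool.Agent.KS6_29.NC

universe u v

/-- `E : B → A` is a faithful conditional expectation onto the unital C*-subalgebra `A` of `B`
(embedded by `ι`): it is linear, the identity on `A`, an `A`-bimodule map, positive and faithful. -/
structure IsFaithfulCondExp {A : Type u} {B : Type v} [CStarAlgebra A] [PartialOrder A]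
    [StarOrderedRing A] [CStarAlgebra B] (ι : A →⋆ₐ[ℂ] B) (E : B →L[ℂ] A) : Prop where
  E_ι : ∀ a, E (ι a) = a
  E_bimod : ∀ a c b, E (ι a * b * ι c) = a * E b * c
  pos : ∀ b, 0 ≤ E (star b * b)
  faithful : ∀ b, E (star b * b) = 0 → b = 0

/-- `x` normalizes `A`: `x A x* ⊆ A` and `x* A x ⊆ A`. -/
def IsNormalizer {A : Type u} {B : Type v} [CStarAlgebra A] [CStarAlgebra B] (ι : A →⋆ₐ[ℂ] B)
    (x : B) : Prop :=
  (∀ a, ∃ c, x * ι a * star x = ι c) ∧ ∀ a, ∃ c, star x * ι a * x = ι c

/-- Kishimoto's condition for the element `x` of `B`: whenever the local algebra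
`{d : e d = d = d e}` of `A` is not zero, it contains positive elements `d` of norm one with
`‖d x d‖` arbitrarily small. -/
def Kishimoto {A : Type u} {B : Type v} [CStarAlgebra A] [PartialOrder A] [CStarAlgebra B]
    (ι : A →⋆ₐ[ℂ] B) (x : B) : Prop :=
  ∀ e : A, star e = e → (∃ d : A, e * d = d ∧ d * e = d ∧ d ≠ 0) → ∀ ε : ℝ, 0 < ε →
    ∃ d : A, e * d = d ∧ d * e = d ∧ 0 ≤ d ∧ ‖d‖ = 1 ∧ ‖ι d * x * ι d‖ < ε

/-- The inclusion `ι : A → B` is orthogonally graded by the family `M` of subspaces of `B` with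
respect to the faithful conditional expectation `E`: every `M s` is an `A`-sub-bimodule of `B` with
`M s (M s)* ⊆ A` and `(M s)* M s ⊆ A`, the sum of all the `M s` is dense in `B`, and
`E ((M s)* M t) = 0` for `s ≠ t`. -/
structure IsOrthGraded {A : Type u} {B : Type v} {J : Type*} [CStarAlgebra A] [PartialOrder A]
    [StarOrderedRing A] [CStarAlgebra B] (ι : A →⋆ₐ[ℂ] B) (M : J → Submodule ℂ B)
    (E : B →L[ℂ] A) : Prop extends IsFaithfulCondExp ι E where
  left : ∀ s a x, x ∈ M s → ι a * x ∈ M s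
  right : ∀ s a x, x ∈ M s → x * ι a ∈ M s
  slice_left : ∀ s x y, x ∈ M s → y ∈ M s → ∃ a, x * star y = ι a
  slice_right : ∀ s x y, x ∈ M s → y ∈ M s → ∃ a, star x * y = ι a
  dense : Dense (↑(⨆ s, M s) : Set B)
  orth : ∀ s t x y, s ≠ t → x ∈ M s → y ∈ M t → E (star x * y) = 0

/-- `B` is the (reduced) cross-sectional C*-algebra of a Fell bundle `M` over the discrete group
`G` with unit fibre `A`: the closed subspaces `M g` of `B` satisfy `M 1 = A`, `M g M h ⊆ M (g h)`
and `(M g)* = M g⁻¹`, their sum is dense in `B`, and `E` is a faithful positive linear map from `B`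
to `A` (the canonical conditional expectation) which is the identity on `A` and zero on `M g` for
`g ≠ 1`. -/
structure IsReducedFell {A : Type u} {B : Type v} {G : Type*} [CStarAlgebra A] [PartialOrder A]
    [StarOrderedRing A] [CStarAlgebra B] [Group G] (ι : A →⋆ₐ[ℂ] B) (M : G → Submodule ℂ B)
    (E : B →L[ℂ] A) : Prop where
  one : ∀ x, x ∈ M 1 ↔ ∃ a, x = ι a
  mul : ∀ g h x y, x ∈ M g → y ∈ M h → x * y ∈ M (g * h)
  star : ∀ g x, x ∈ M g → star x ∈ M g⁻¹
  dense : Dense (↑(⨆ g, M g) : Set B)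
  E_ι : ∀ a, E (ι a) = a
  E_ne : ∀ g x, g ≠ 1 → x ∈ M g → E x = 0
  pos : ∀ b, 0 ≤ E (Star.star b * b)
  faithful : ∀ b, E (Star.star b * b) = 0 → b = 0

end Pool.Agent.KS6_29.NC
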