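import Pool.Agent.KS6_29.NC.Kish

/-! # Kishimoto's condition implies norming: the estimates -/

set_option autoImplicit false

open scoped CStarAlgebra ComplexOrder
open Pool.Agent.W661.Nrm

namespace Pool.Agent.KS6_29.NC

variable {A B J : Type*} [CStarAlgebra A] [PartialOrder A] [StarOrderedRing A]
  [CStarAlgebra B] [PartialOrder B] [StarOrderedRing B]
  {ι : A →⋆ₐ[ℂ] B} {E : B →L[ℂ] A} {k : ℕ}

lemma small_fin' {κ : Type*} (F : Finset κ) (yy : κ → B) (hK : ∀ i ∈ F, KN ι (yy i))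
    {ε : ℝ} (hε : 0 < ε) {e : A} (he : Rm e) :
    ∃ e' : A, Rm e' ∧ (∀ d ∈ Dd e', d ∈ Dd e) ∧ ∀ i ∈ F, ∀ x ∈ Dd e', ∀ y ∈ Dd e',
      ‖ι x * yy i * ι y‖ ≤ ε * ‖x‖ * ‖y‖ := by
  classical
  induction F using Finset.induction_on with
  | empty => exact ⟨e, he, fun d hd => hd, by simp⟩
  | insert i F hi ih =>
    obtain ⟨e1, h1, h2, h3⟩ := ih (fun j hj => hK j (Finset.mem_insert_of_mem hj))
    obtain ⟨d, hd, hd0, hdn, hds⟩ := hK i (Finset.mem_insert_self _ _) e1 h1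
      (ε / 4) (by positivity)
    obtain ⟨e', d', g, k1, k2, k3, k4, k5, k6, k7, k8, k9, k10, k11⟩ := shrink h1.sa hd hd0 hdn
    refine ⟨e', k1, fun x hx => h2 x (Dd_sub k2 hx), ?_⟩
    intro j hj x hx y hy
    rcases Finset.mem_insert.1 hj with rfl | hj'
    · have hx1 : ι x = ι x * ι g * ι d := by
        rw [← map_mul, ← map_mul, mul_assoc, ← k5, hx.2]
      have hy1 : ι y = ι d * (ι g * ι y) := by
        rw [← map_mul, ← map_mul, ← mul_assoc, ← k4, hy.1]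
      have key : ι x * yy j * ι y =
          ι x * ι g * (ι d * yy j * ι d) * (ι g * ι y) := by
        conv_lhs => rw [hx1, hy1]
        simp only [mul_assoc]
      rw [key]
      have e1 : ‖ι x * ι g‖ ≤ ‖x‖ * 2 := by
        refine (norm_mul_le _ _).trans ?_
        gcongr
        · exact norm_ι_le ι x
        · exact (norm_ι_le ι g).trans k3
      have e2 : ‖ι g * ι y‖ ≤ 2 * ‖y‖ := by
        refine (norm_mul_le _ _).trans ?_
        gcongr
        · exact (norm_ι_le ι g).trans k3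
        · exact norm_ι_le ι y
      calc ‖ι x * ι g * (ι d * yy j * ι d) * (ι g * ι y)‖
          ≤ ‖ι x * ι g * (ι d * yy j * ι d)‖ * ‖ι g * ι y‖ := norm_mul_le _ _
        _ ≤ ‖ι x * ι g‖ * ‖ι d * yy j * ι d‖ * ‖ι g * ι y‖ := by
            gcongr
            exact norm_mul_le _ _
        _ ≤ (‖x‖ * 2) * (ε / 4) * (2 * ‖y‖) := by gcongr
        _ = ε * ‖x‖ * ‖y‖ := by ring
    · exact h3 j hj' x (Dd_sub k2 hx) y (Dd_sub k2 hy)

/-- almost orthogonal sums -/
lemma norm_sum_orth' [DecidableEq J] (F : Finset J) (w : J → B) (d : A) (hd : 0 ≤ d)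
    (hw : ∀ s ∈ F, ‖w s * ι d‖ ≤ 1) {ε : ℝ} (hε : 0 ≤ ε)
    (hs : ∀ s ∈ F, ∀ t ∈ F, s ≠ t → ‖ι d * star (w s) * w t * ι d‖ ≤ ε) :
    ‖∑ s ∈ F, w s * (ι d * ι d) * star (w s)‖ ≤ 1 + (∑ s ∈ F, ∑ t ∈ F, 1) * ε := by
  have hds : star (ι d) = ι d := by
    rw [← map_star, (IsSelfAdjoint.of_nonneg hd).star_eq]
  have hw' : ∀ s ∈ F, ‖ι d * star (w s)‖ ≤ 1 := by
    intro s hs1
    have := hw s hs1
    rwa [← norm_star, star_mul, hds] at this
  set p : J → B := fun s => w s * (ι d * ι d) * star (w s) with hp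
  have hpe : ∀ s, p s = (w s * ι d) * star (w s * ι d) := by
    intro s
    rw [star_mul, hds]
    simp only [hp, mul_assoc]
  set T : B := ∑ s ∈ F, p s with hT
  have hpn : ∀ s ∈ F, ‖p s‖ ≤ 1 := by
    intro s hs1
    rw [hpe, CStarRing.norm_self_mul_star]
    have := hw s hs1
    have h0 := norm_nonneg (w s * ι d)
    nlinarith
  have hp0 : ∀ s, 0 ≤ p s := by
    intro s
    rw [hpe]
    exact mul_star_self_nonneg _
  have hps : ∀ s, star (p s) = p s := fun s => (hp0 s).isSelfAdjoint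
  have hp2 : ∀ s ∈ F, p s * p s ≤ p s := by
    intro s hs1
    have h1 : p s ≤ 1 := (CStarAlgebra.norm_le_one_iff_of_nonneg (p s) (hp0 s)).1 (hpn s hs1)
    have h2 : 0 ≤ p s * (1 - p s) :=
      Commute.mul_nonneg (hp0 s) (sub_nonneg.2 h1) (by
        simp [commute_iff_eq, mul_sub, sub_mul])
    rw [mul_sub, mul_one, sub_nonneg] at h2
    exact h2
  have hT0 : 0 ≤ T := Finset.sum_nonneg fun s _ => hp0 s
  have hTs : star T = T := hT0.isSelfAdjoint
  have hTT : T * T = ∑ s ∈ F, p s * p s + ∑ s ∈ F, ∑ t ∈ F, (if s = t then 0 else p s * p t) := by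
    rw [hT, Finset.sum_mul_sum]
    exact split_diag F (fun s t => p s * p t)
  have hoff : ‖∑ s ∈ F, ∑ t ∈ F, (if s = t then 0 else p s * p t)‖ ≤
      (∑ s ∈ F, ∑ t ∈ F, 1) * ε := by
    refine norm_off F (fun s t => p s * p t) (fun _ _ => 1) (fun _ _ _ _ => zero_le_one) hε ?_
    intro s hs1 t ht1 hst
    have h1 : p s * p t = (w s * ι d) * (ι d * star (w s) * w t * ι d) * (ι d * star (w t)) := by
      simp only [hp, mul_assoc]
    rw [h1]
    refine (norm_mul_le _ _).trans ?_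
    calc ‖(w s * ι d) * (ι d * star (w s) * w t * ι d)‖ * ‖ι d * star (w t)‖
        ≤ (‖w s * ι d‖ * ‖ι d * star (w s) * w t * ι d‖) * ‖ι d * star (w t)‖ := by
          gcongr
          exact norm_mul_le _ _
      _ ≤ (1 * ε) * 1 := by
          have := hs s hs1 t ht1 hst
          have h2 := hw s hs1
          have h3 := hw' t ht1
          gcongr
      _ = 1 * ε := by ring
  have hdiag : ‖∑ s ∈ F, p s * p s‖ ≤ ‖T‖ := by
    refine CStarAlgebra.norm_le_norm_of_nonneg_of_le ?_ ?_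
    · refine Finset.sum_nonneg fun s _ => ?_
      have := star_mul_self_nonneg (p s)
      rwa [hps] at this
    · exact Finset.sum_le_sum fun s hs1 => hp2 s hs1
  set q : ℝ := (∑ s ∈ F, ∑ t ∈ F, 1) * ε with hq
  have hq0 : 0 ≤ q := by
    rw [hq]
    refine mul_nonneg ?_ hε
    exact Finset.sum_nonneg fun s _ => Finset.sum_nonneg fun t _ => zero_le_one
  have hfin : ‖T‖ * ‖T‖ ≤ ‖T‖ + q := by
    rw [← CStarRing.norm_star_mul_self (x := T), hTs, hTT]
    exact (norm_add_le _ _).trans (add_le_add hdiag hoff)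
  by_contra hcon
  push Not at hcon
  have : 1 < ‖T‖ := by linarith
  nlinarith

/-- the column -/
noncomputable def CB (ι : A →⋆ₐ[ℂ] B) (F : Finset J) (z : J → Fin k → B) (w : J → B) (ν : J → ℝ)
    (d : A) (i : Fin k) : B := ∑ s ∈ F, (√(ν s))⁻¹ • (z s i * ι d * star (w s))

/-- the element of `B` -/
noncomputable def ZB (ι : A →⋆ₐ[ℂ] B) (F : Finset J) (w : J → B) (ν : J → ℝ) (d' : A) :
    B := ∑ t ∈ F, √(ν t) • (w t * ι d')

/-- the inner terms -/
noncomputable def InB (ι : A →⋆ₐ[ℂ] B) (z : J → Fin k → B) (d : A) (s t : J) : B :=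
  ∑ i, ι d * (star (z s i) * z t i) * ι d

omit [StarOrderedRing A] [PartialOrder B] [StarOrderedRing B] in
lemma ip_CB [StarOrderedRing A] (F : Finset J) (z : J → Fin k → B) (w : J → B) (ν : J → ℝ)
    (d : A) (hd : 0 ≤ d) :
    ip (CB ι F z w ν d) (CB ι F z w ν d) =
      ∑ s ∈ F, ∑ t ∈ F, ((√(ν s))⁻¹ * (√(ν t))⁻¹) • (w s * InB ι z d s t * star (w t)) := by
  have hds : star (ι d) = ι d := by
    rw [← map_star, (IsSelfAdjoint.of_nonneg hd).star_eq]
  unfold ip CB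
  have h1 : ∀ i : Fin k, star (∑ s ∈ F, (√(ν s))⁻¹ • (z s i * ι d * star (w s))) *
        ∑ t ∈ F, (√(ν t))⁻¹ • (z t i * ι d * star (w t)) =
      ∑ s ∈ F, ∑ t ∈ F, ((√(ν s))⁻¹ * (√(ν t))⁻¹) • (w s *
        (ι d * (star (z s i) * z t i) * ι d) * star (w t)) := by
    intro i
    rw [star_sum, Finset.sum_mul_sum]
    refine Finset.sum_congr rfl fun s _ => Finset.sum_congr rfl fun t _ => ?_
    rw [star_smul, smul_mul_smul_comm, star_mul, star_mul, star_star, hds]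
    simp only [mul_assoc, star_trivial]
  simp only [h1]
  rw [Finset.sum_comm]
  refine Finset.sum_congr rfl fun s _ => ?_
  rw [Finset.sum_comm]
  refine Finset.sum_congr rfl fun t _ => ?_
  rw [← Finset.smul_sum, InB, Finset.mul_sum, Finset.sum_mul]

lemma norm_ip_CB [DecidableEq J] (F : Finset J) (z : J → Fin k → B) (w : J → B)
    (hh : J → Fin k → A) (hz : ∀ s ∈ F, ∀ i, star (z s i) * z s i = ι (hh s i))
    (ν : J → ℝ) (hν : ∀ s ∈ F, 0 < ν s) (d : A) (hd : 0 ≤ d)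
    (hw : ∀ s ∈ F, ‖w s * ι d‖ ≤ 1)
    (hup : ∀ s ∈ F, d * (∑ i, hh s i) * d ≤ ν s • (d * d))
    {ε : ℝ} (hε : 0 ≤ ε)
    (H1 : ∀ s ∈ F, ∀ t ∈ F, s ≠ t → ‖ι d * star (w s) * w t * ι d‖ ≤ ε)
    (H2 : ∀ s ∈ F, ∀ t ∈ F, s ≠ t → ∀ i, ‖ι d * (star (z s i) * z t i) * ι d‖ ≤ ε) :
    ‖ip (CB ι F z w ν d) (CB ι F z w ν d)‖ ≤
      1 + ((∑ s ∈ F, ∑ t ∈ F, 1) +
        (∑ s ∈ F, ∑ t ∈ F, (√(ν s))⁻¹ * (√(ν t))⁻¹ * (k * (‖w s‖ * ‖w t‖)))) * ε := by
  have hds : star (ι d) = ι d := by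
    rw [← map_star, (IsSelfAdjoint.of_nonneg hd).star_eq]
  have hself : ∀ s ∈ F, InB ι z d s s = ι (d * (∑ i, hh s i) * d) := by
    intro s hs
    unfold InB
    rw [map_mul, map_mul, map_sum, Finset.mul_sum, Finset.sum_mul]
    exact Finset.sum_congr rfl fun i _ => by rw [hz s hs i]
  rw [ip_CB F z w ν d hd, split_diag]
  refine (norm_add_le _ _).trans ?_
  rw [add_mul, ← add_assoc]
  refine add_le_add ?_ ?_
  · refine le_trans ?_ (norm_sum_orth' F w d hd hw hε H1)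
    have hle : ∀ s ∈ F, ((√(ν s))⁻¹ * (√(ν s))⁻¹) • (w s * InB ι z d s s *
        star (w s)) ≤ w s * (ι d * ι d) * star (w s) := by
      intro s hs
      have h1 := ι_mono ι (hup s hs)
      rw [← hself s hs, ι_rsmul, map_mul] at h1
      have h2 := star_right_conjugate_le_conjugate h1 (w s)
      have h3 : 0 ≤ (√(ν s))⁻¹ * (√(ν s))⁻¹ := by positivity
      have h4 := smul_le_smul_of_nonneg_left h2 h3
      refine h4.trans (le_of_eq ?_)
      rw [mul_smul_comm, smul_mul_assoc, smul_smul]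
      have h5 : (√(ν s))⁻¹ * (√(ν s))⁻¹ * ν s = 1 := by
        have := hν s hs
        rw [← mul_inv, Real.mul_self_sqrt this.le, inv_mul_cancel₀ this.ne']
      rw [h5, one_smul]
    refine CStarAlgebra.norm_le_norm_of_nonneg_of_le ?_ (Finset.sum_le_sum hle)
    refine Finset.sum_nonneg fun s hs => ?_
    refine smul_nonneg (by positivity) ?_
    refine star_right_conjugate_nonneg ?_ _
    unfold InB
    refine Finset.sum_nonneg fun i _ => ?_
    have h7 := star_left_conjugate_nonneg (star_mul_self_nonneg (z s i)) (ι d)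
    rwa [hds] at h7
  · refine norm_off F (fun s t => ((√(ν s))⁻¹ * (√(ν t))⁻¹) •
        (w s * InB ι z d s t * star (w t)))
      (fun s t => (√(ν s))⁻¹ * (√(ν t))⁻¹ * (k * (‖w s‖ * ‖w t‖)))
      (fun s _ t _ => by positivity) hε ?_
    intro s hs t ht hst
    rw [norm_smul, Real.norm_eq_abs, abs_of_nonneg (by positivity), mul_assoc (_ * _)]
    refine mul_le_mul_of_nonneg_left ?_ (by positivity)
    have h1 : ‖InB ι z d s t‖ ≤ k * ε := by
      unfold InB
      refine (norm_sum_le _ _).trans ?_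
      refine (Finset.sum_le_card_nsmul _ _ ε fun i _ => H2 s hs t ht hst i).trans ?_
      simp
    calc ‖w s * InB ι z d s t * star (w t)‖ ≤ ‖w s * InB ι z d s t‖ * ‖star (w t)‖ :=
          norm_mul_le _ _
      _ ≤ (‖w s‖ * ‖InB ι z d s t‖) * ‖w t‖ := by
          rw [norm_star]
          gcongr
          exact norm_mul_le _ _
      _ ≤ (‖w s‖ * (k * ε)) * ‖w t‖ := by gcongr
      _ = k * (‖w s‖ * ‖w t‖) * ε := by ring

lemma norm_ZB [DecidableEq J] (F : Finset J) (w : J → B) (ν : J → ℝ) (hν : ∀ s ∈ F, 0 < ν s)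
    (d' : A) (hd : 0 ≤ d') (hw : ∀ s ∈ F, ‖w s * ι d'‖ ≤ 1) {ε : ℝ} (hε : 0 ≤ ε)
    (H1 : ∀ s ∈ F, ∀ t ∈ F, s ≠ t → ‖ι d' * star (w s) * w t * ι d'‖ ≤ ε) :
    ‖ZB ι F w ν d'‖ * ‖ZB ι F w ν d'‖ ≤
      ∑ s ∈ F, ν s + (∑ s ∈ F, ∑ t ∈ F, √(ν s) * √(ν t)) * ε := by
  have hds : star (ι d') = ι d' := by
    rw [← map_star, (IsSelfAdjoint.of_nonneg hd).star_eq]
  have h1 : star (ZB ι F w ν d') * ZB ι F w ν d' =
      ∑ s ∈ F, ∑ t ∈ F, (√(ν s) * √(ν t)) • (ι d' * star (w s) * w t * ι d') := by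
    unfold ZB
    rw [star_sum, Finset.sum_mul_sum]
    refine Finset.sum_congr rfl fun s _ => Finset.sum_congr rfl fun t _ => ?_
    rw [star_smul, smul_mul_smul_comm, star_mul, hds]
    simp only [mul_assoc, star_trivial]
  rw [← CStarRing.norm_star_mul_self, h1, split_diag]
  refine (norm_add_le _ _).trans (add_le_add ?_ ?_)
  · refine (norm_sum_le _ _).trans (Finset.sum_le_sum fun s hs => ?_)
    have h3 : ι d' * star (w s) * w s * ι d' = star (w s * ι d') * (w s * ι d') := by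
      rw [star_mul, hds]
      simp only [mul_assoc]
    rw [norm_smul, Real.norm_eq_abs, abs_of_nonneg (by positivity),
      Real.mul_self_sqrt (hν s hs).le, h3, CStarRing.norm_star_mul_self]
    have h2 : ‖w s * ι d'‖ * ‖w s * ι d'‖ ≤ 1 := by
      have := hw s hs
      have h0 := norm_nonneg (w s * ι d')
      nlinarith
    calc ν s * (‖w s * ι d'‖ * ‖w s * ι d'‖) ≤ ν s * 1 :=
          mul_le_mul_of_nonneg_left h2 (hν s hs).le
      _ = ν s := mul_one _
  · refine norm_off F (fun s t => (√(ν s) * √(ν t)) • (ι d' * star (w s) * w t * ι d'))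
      (fun s t => √(ν s) * √(ν t)) (fun s _ t _ => by positivity) hε ?_
    intro s hs t ht hst
    rw [norm_smul, Real.norm_eq_abs, abs_of_nonneg (by positivity)]
    gcongr
    exact H1 s hs t ht hst

omit [PartialOrder A] [StarOrderedRing A] [PartialOrder B] [StarOrderedRing B] in
lemma CB_mul_ZB [DecidableEq J] (F : Finset J) (z : J → Fin k → B) (w : J → B) (ν : J → ℝ)
    (hν : ∀ s ∈ F, 0 < ν s) (d d' : A) {ε θ : ℝ} (hε : 0 ≤ ε)
    (H1 : ∀ s ∈ F, ∀ t ∈ F, s ≠ t → ‖ι d * star (w s) * w t * ι d'‖ ≤ ε)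
    (Hθ : ∀ s ∈ F, ∀ i, ‖z s i * (ι d * star (w s) * w s * ι d') - z s i * ι d'‖ ≤ θ)
    (i : Fin k) :
    ‖CB ι F z w ν d i * ZB ι F w ν d' - (∑ s ∈ F, z s i) * ι d'‖ ≤
      F.card * θ + (∑ s ∈ F, ∑ t ∈ F, (√(ν s))⁻¹ * √(ν t) * ‖z s i‖) * ε := by
  have h1 : CB ι F z w ν d i * ZB ι F w ν d' = ∑ s ∈ F, ∑ t ∈ F, ((√(ν s))⁻¹ * √(ν t)) •
      (z s i * (ι d * star (w s) * w t * ι d')) := by
    unfold CB ZB
    rw [Finset.sum_mul_sum]
    refine Finset.sum_congr rfl fun s _ => Finset.sum_congr rfl fun t _ => ?_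
    rw [smul_mul_smul_comm]
    simp only [mul_assoc]
  have h2 : ∑ s ∈ F, ((√(ν s))⁻¹ * √(ν s)) • (z s i * (ι d * star (w s) * w s * ι d')) =
      ∑ s ∈ F, z s i * (ι d * star (w s) * w s * ι d') := by
    refine Finset.sum_congr rfl fun s hs => ?_
    have h3 : √(ν s) ≠ 0 := (Real.sqrt_pos.2 (hν s hs)).ne'
    rw [inv_mul_cancel₀ h3, one_smul]
  rw [h1, split_diag, h2, Finset.sum_mul, add_sub_right_comm, ← Finset.sum_sub_distrib]
  refine (norm_add_le _ _).trans (add_le_add ?_ ?_)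
  · refine (norm_sum_le _ _).trans ?_
    refine (Finset.sum_le_card_nsmul _ _ θ fun s hs => Hθ s hs i).trans ?_
    simp
  · refine norm_off F (fun s t => ((√(ν s))⁻¹ * √(ν t)) •
        (z s i * (ι d * star (w s) * w t * ι d')))
      (fun s t => (√(ν s))⁻¹ * √(ν t) * ‖z s i‖) (fun s _ t _ => by positivity) hε ?_
    intro s hs t ht hst
    have h3 := H1 s hs t ht hst
    calc ‖((√(ν s))⁻¹ * √(ν t)) • (z s i * (ι d * star (w s) * w t * ι d'))‖
        = ((√(ν s))⁻¹ * √(ν t)) * ‖z s i * (ι d * star (w s) * w t * ι d')‖ := by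
          rw [norm_smul, Real.norm_eq_abs, abs_of_nonneg (by positivity)]
      _ ≤ ((√(ν s))⁻¹ * √(ν t)) * (‖z s i‖ * ε) := by
          refine mul_le_mul_of_nonneg_left ?_ (by positivity)
          exact (norm_mul_le _ _).trans (mul_le_mul_of_nonneg_left h3 (norm_nonneg _))
      _ = (√(ν s))⁻¹ * √(ν t) * ‖z s i‖ * ε := by ring

end Pool.Agent.KS6_29.NC
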