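import Pool.Agent.KS6_29.NC.Norm1

/-! # Kishimoto's condition implies norming: the main lemma -/

set_option autoImplicit false

open scoped CStarAlgebra ComplexOrder
open Pool.Agent.W661.Nrm

namespace Pool.Agent.KS6_29.NC

variable {A B J : Type*} [CStarAlgebra A] [PartialOrder A] [StarOrderedRing A]
  [CStarAlgebra B] [PartialOrder B] [StarOrderedRing B]
  {ι : A →⋆ₐ[ℂ] B} {E : B →L[ℂ] A} {M : J → Submodule ℂ B} {k : ℕ}

lemma IsOrthGraded.star_mul_normalizer (h : IsOrthGraded ι M E) {s t : J} {x y : B} (hx : x ∈ M s)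
    (hy : y ∈ M t) : IsNormalizer ι (star x * y) := by
  refine ⟨fun a => ?_, fun a => ?_⟩
  · obtain ⟨c, hc⟩ := h.slice_left t _ _ (h.right t a y hy) hy
    obtain ⟨c', hc'⟩ := h.slice_right s _ _ hx (h.left s c x hx)
    refine ⟨c', ?_⟩
    rw [← hc', ← hc, star_mul, star_star]
    simp only [mul_assoc]
  · obtain ⟨c, hc⟩ := h.slice_left s _ _ (h.right s a x hx) hx
    obtain ⟨c', hc'⟩ := h.slice_right t _ _ hy (h.left t c y hy)
    refine ⟨c', ?_⟩
    rw [← hc', ← hc, star_mul, star_star]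
    simp only [mul_assoc]

lemma E_ip' (h : IsOrthGraded ι M E) (F : Finset J) (z : J → Fin k → B)
    (hzM : ∀ s i, z s i ∈ M s) (hh : J → Fin k → A)
    (hz : ∀ s i, star (z s i) * z s i = ι (hh s i)) :
    E (ip (fun i => ∑ s ∈ F, z s i) (fun i => ∑ s ∈ F, z s i)) = ∑ s ∈ F, ∑ i, hh s i := by
  unfold ip
  rw [map_sum, Finset.sum_comm]
  refine Finset.sum_congr rfl fun i _ => ?_
  rw [star_sum, Finset.sum_mul_sum, map_sum]
  refine Finset.sum_congr rfl fun s hs => ?_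
  rw [map_sum, Finset.sum_eq_single_of_mem s hs]
  · rw [hz, h.E_ι]
  · intro t _ hts
    exact h.orth s t _ _ (Ne.symm hts) (hzM s i) (hzM t i)

/-- choice of the vector -/
lemma exists_vector' (h : IsOrthGraded ι M E) (Y : CStarMatrix (Fin k) (Fin k) B) (hY : 0 ≤ Y)
    {m : ℝ} (hm : 0 ≤ m) (hmY : m < ‖Y‖) :
    ∃ (F : Finset J) (z : J → Fin k → B), (∀ s i, z s i ∈ M s) ∧
      ¬ (E (bil Y (fun i => ∑ s ∈ F, z s i) (fun i => ∑ s ∈ F, z s i)) -
          m • E (ip (fun i => ∑ s ∈ F, z s i) (fun i => ∑ s ∈ F, z s i)) ≤ 0) := by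
  classical
  obtain ⟨z0, hz1, hz2⟩ := exists_column' Y hY hm hmY
  set f : (Fin k → B) → A := fun z => E (bil Y z z - m • ip z z) with hf
  have hfc : Continuous f := by
    unfold f bil ip
    fun_prop
  have hW1 : 0 ≤ f z0 := h.E_nonneg hz1
  have hW2 : f z0 ≠ 0 := by
    obtain ⟨b, hb⟩ := (CStarAlgebra.nonneg_iff_eq_star_mul_self).1 hz1
    intro h0
    have h1 : f z0 = E (star b * b) := by rw [hf, ← hb]
    rw [h1] at h0
    apply hz2
    rw [hb, h.faithful b h0, mul_zero]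
  have hD : Dense (Set.pi Set.univ (fun _ : Fin k => (↑(⨆ s, M s) : Set B))) :=
    dense_pi Set.univ (fun _ _ => h.dense)
  have hopen : IsOpen {z : Fin k → B | ‖f z - f z0‖ < ‖f z0‖} :=
    isOpen_lt (by fun_prop) continuous_const
  obtain ⟨z1, hz1M, hz1o⟩ := hD.exists_mem_open hopen ⟨z0, by
    rw [Set.mem_ofPred_eq, sub_self, norm_zero]
    exact norm_pos_iff.2 hW2⟩
  have hz1M' : ∀ i, z1 i ∈ ⨆ s, M s := fun i => hz1M i (Set.mem_univ i)
  choose g hg1 hg2 using fun i => (Submodule.mem_iSup_iff_exists_finsupp M (z1 i)).1 (hz1M' i)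
  set F : Finset J := Finset.univ.biUnion fun i => (g i).support with hF
  have hsum : ∀ i, ∑ s ∈ F, g i s = z1 i := by
    intro i
    rw [← hg2 i]
    symm
    exact Finsupp.sum_of_support_subset (g i)
      (Finset.subset_biUnion_of_mem (fun i => (g i).support) (Finset.mem_univ i))
      (fun _ x => x) (by simp)
  refine ⟨F, fun s i => g i s, fun s i => hg1 i s, ?_⟩
  have hfun : (fun i => ∑ s ∈ F, g i s) = z1 := funext hsum
  rw [hfun]
  intro hle
  rw [Set.mem_ofPred_eq] at hz1o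
  have h1 : E (bil Y z1 z1) - m • E (ip z1 z1) = f z1 := by
    rw [hf]
    simp only
    rw [map_sub]
    congr 1
    exact ((E.restrictScalars ℝ).map_smul m (ip z1 z1)).symm
  rw [h1] at hle
  have h2 : f z0 ≤ f z0 - f z1 := by
    rw [le_sub_self_iff]
    exact hle
  have h3 := CStarAlgebra.norm_le_norm_of_nonneg_of_le hW1 h2
  rw [norm_sub_rev] at h3
  linarith

/-- two-sided estimate for the sandwiched element -/
lemma sandwich_near {h0 d d' : A} {l δ : ℝ} (hd1 : ‖d‖ ≤ 1)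
    (hd'1 : ‖d'‖ ≤ 1) (hdd : d * d' = d') (hδ : 0 ≤ δ)
    (hu : d * h0 * d ≤ l • (d * d)) (hl : (l - δ) • (d * d) ≤ d * h0 * d) :
    ‖d * h0 * d' - l • d'‖ ≤ δ := by
  have h1 : d * h0 * d' - l • d' = (d * h0 * d - l • (d * d)) * d' := by
    rw [sub_mul, mul_assoc (d * h0), hdd, smul_mul_assoc, mul_assoc d d, hdd, hdd]
  rw [h1]
  have h2 : 0 ≤ l • (d * d) - d * h0 * d := sub_nonneg.2 hu
  have h3 : l • (d * d) - d * h0 * d ≤ δ • (d * d) := by
    have h4 : l • (d * d) - d * h0 * d ≤ l • (d * d) - (l - δ) • (d * d) :=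
      sub_le_sub_left hl _
    rwa [← sub_smul, sub_sub_cancel] at h4
  have h4 := CStarAlgebra.norm_le_norm_of_nonneg_of_le h2 h3
  have h5 : ‖δ • (d * d)‖ ≤ δ := by
    rw [norm_smul, Real.norm_eq_abs, abs_of_nonneg hδ]
    have h6 : ‖d * d‖ ≤ 1 := by
      refine (norm_mul_le _ _).trans ?_
      have := norm_nonneg d
      nlinarith
    nlinarith [norm_nonneg (d * d)]
  rw [norm_sub_rev] at h4
  calc ‖(d * h0 * d - l • (d * d)) * d'‖ ≤ ‖d * h0 * d - l • (d * d)‖ * ‖d'‖ := norm_mul_le _ _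
    _ ≤ δ * 1 := mul_le_mul (h4.trans h5) hd'1 (norm_nonneg _) hδ
    _ = δ := mul_one δ

/-- the choice of the almost isometric element of a slice -/
lemma exists_w (N : Submodule ℂ B) (z : Fin k → B) (hzM : ∀ i, z i ∈ N) (hh : Fin k → A)
    (hz : ∀ i, star (z i) * z i = ι (hh i)) {e2 : A} (l : Fin k → ℝ) {δ θ Mz : ℝ}
    (hδ : 0 ≤ δ) (hθ : 0 < θ) (hMz : ∀ i, ‖z i‖ ≤ Mz) (hδθ : Mz * δ ≤ θ ^ 3)
    (hl : ∀ i, ∀ d ∈ Dd e2, star d * hh i * d ≤ l i • (star d * d) ∧
      (l i - δ) • (star d * d) ≤ star d * hh i * d) :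
    ∃ w ∈ N, (∀ d ∈ Dd e2, ‖w * ι d‖ ≤ ‖d‖) ∧
      ∀ d ∈ Dd e2, ∀ d' ∈ Dd e2, 0 ≤ d → ‖d‖ ≤ 1 → ‖d'‖ ≤ 1 → d * d' = d' →
        ∀ i, ‖z i * (ι d * star w * w * ι d') - z i * ι d'‖ ≤ θ := by
  by_cases hex : ∃ i, θ ^ 2 < l i
  · obtain ⟨i0, hi0⟩ := hex
    have hl0 : 0 < l i0 := lt_trans (by positivity) hi0
    have hsq : 0 < √(l i0) := Real.sqrt_pos.2 hl0
    have hinv : (√(l i0))⁻¹ * (√(l i0))⁻¹ = (l i0)⁻¹ := by
      rw [← mul_inv, Real.mul_self_sqrt hl0.le]
    set r : ℝ := (√(l i0))⁻¹ with hr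
    have hr0 : 0 < r := inv_pos.2 hsq
    have hw : ∀ x y : A, ι x * star ((r : ℂ) • z i0) * ((r : ℂ) • z i0) * ι y =
        (l i0)⁻¹ • ι (x * hh i0 * y) := by
      intro x y
      rw [map_mul, map_mul, ← hz]
      simp only [Complex.coe_smul, star_smul, star_trivial, mul_smul_comm, smul_mul_assoc,
        smul_smul, hinv, mul_assoc]
    refine ⟨(r : ℂ) • z i0, N.smul_mem _ (hzM i0), ?_, ?_⟩
    · intro d hd
      have h2 : ‖((r : ℂ) • z i0) * ι d‖ * ‖((r : ℂ) • z i0) * ι d‖ ≤ ‖d‖ * ‖d‖ := by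
        rw [← CStarRing.norm_star_mul_self]
        have h3 : star (((r : ℂ) • z i0) * ι d) * (((r : ℂ) • z i0) * ι d) =
            (l i0)⁻¹ • ι (star d * hh i0 * d) := by
          rw [← hw, map_star, star_mul]
          simp only [mul_assoc]
        have h5 : 0 ≤ (l i0)⁻¹ • ι (star d * hh i0 * d) := by
          rw [← h3]
          exact star_mul_self_nonneg _
        have h6 : (l i0)⁻¹ • ι (star d * hh i0 * d) ≤ ι (star d * d) := by
          have h7 := smul_le_smul_of_nonneg_left (ι_mono ι (hl i0 d hd).1) (inv_pos.2 hl0).le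
          rwa [ι_rsmul, smul_smul, inv_mul_cancel₀ hl0.ne', one_smul] at h7
        rw [h3]
        refine (CStarAlgebra.norm_le_norm_of_nonneg_of_le h5 h6).trans ?_
        refine (norm_ι_le ι _).trans ?_
        rw [CStarRing.norm_star_mul_self]
      exact (mul_self_le_mul_self_iff (norm_nonneg _) (norm_nonneg _)).2 h2
    · intro d hd d' hd' hd0 hd1 hd'1 hdd i
      have hds : star d = d := (IsSelfAdjoint.of_nonneg hd0).star_eq
      have h8 := hl i0 d hd
      rw [hds] at h8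
      have h9 := sandwich_near hd1 hd'1 hdd hδ h8.1 h8.2
      have h10 : z i * (ι d * star ((r : ℂ) • z i0) * ((r : ℂ) • z i0) * ι d') - z i * ι d' =
          (l i0)⁻¹ • (z i * ι (d * hh i0 * d' - l i0 • d')) := by
        rw [hw, map_sub, ι_rsmul, mul_sub, smul_sub, mul_smul_comm, mul_smul_comm, smul_smul,
          inv_mul_cancel₀ hl0.ne', one_smul]
      rw [h10, norm_smul, norm_inv, Real.norm_eq_abs, abs_of_pos hl0]
      rw [inv_mul_le_iff₀ hl0]
      have hMz0 : 0 ≤ Mz := (norm_nonneg _).trans (hMz i)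
      calc ‖z i * ι (d * hh i0 * d' - l i0 • d')‖ ≤ ‖z i‖ * ‖ι (d * hh i0 * d' - l i0 • d')‖ :=
            norm_mul_le _ _
        _ ≤ Mz * δ := mul_le_mul (hMz i) ((norm_ι_le ι _).trans h9) (norm_nonneg _) hMz0
        _ ≤ θ ^ 3 := hδθ
        _ = θ ^ 2 * θ := by ring
        _ ≤ l i0 * θ := by gcongr
  · push Not at hex
    refine ⟨0, N.zero_mem, ?_, ?_⟩
    · intro d _
      rw [zero_mul, norm_zero]
      exact norm_nonneg d
    · intro d _ d' hd' _ _ hd'1 _ i
      rw [star_zero, mul_zero, zero_mul (ι d'), mul_zero, zero_sub, norm_neg]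
      have h3 : star (z i * ι d') * (z i * ι d') = ι (star d' * hh i * d') := by
        rw [star_mul, map_mul, map_mul, map_star, ← hz]
        simp only [mul_assoc]
      have h5 : 0 ≤ ι (star d' * hh i * d') := by
        rw [← h3]
        exact star_mul_self_nonneg _
      have h6 : ι (star d' * hh i * d') ≤ ι ((θ ^ 2) • (star d' * d')) :=
        (ι_mono ι (hl i d' hd').1).trans
          (ι_mono ι (smul_le_smul_of_nonneg_right (hex i) (star_mul_self_nonneg d')))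
      have h7 := CStarAlgebra.norm_le_norm_of_nonneg_of_le h5 h6
      rw [← h3, CStarRing.norm_star_mul_self] at h7
      have h8 : ‖ι ((θ ^ 2) • (star d' * d'))‖ ≤ θ ^ 2 := by
        refine (norm_ι_le ι _).trans ?_
        rw [norm_smul, CStarRing.norm_star_mul_self, Real.norm_eq_abs, abs_of_pos (by positivity)]
        have h9 : ‖d'‖ * ‖d'‖ ≤ 1 := by
          have := norm_nonneg d'
          nlinarith
        have h10 : 0 ≤ θ ^ 2 := by positivity
        nlinarith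
      have h9 : ‖z i * ι d'‖ * ‖z i * ι d'‖ ≤ θ * θ := by
        rw [← sq θ]
        exact h7.trans h8
      exact (mul_self_le_mul_self_iff (norm_nonneg _) hθ.le).2 h9

end Pool.Agent.KS6_29.NC
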