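import Pool.Agent.KS6_29.NC.Norm2

/-! # Kishimoto's condition implies norming: conclusion -/

set_option autoImplicit false

open scoped CStarAlgebra ComplexOrder
open Pool.Agent.W661.Nrm

namespace Pool.Agent.KS6_29.NC

variable {A B J : Type*} [CStarAlgebra A] [PartialOrder A] [StarOrderedRing A]
  [CStarAlgebra B] [PartialOrder B] [StarOrderedRing B]
  {ι : A →⋆ₐ[ℂ] B} {E : B →L[ℂ] A} {M : J → Submodule ℂ B} {k : ℕ}

/-- the main lemma, before the normalisation -/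
theorem main_aux' (h : IsOrthGraded ι M E)
    (hK : ∀ s t x y, s ≠ t → x ∈ M s → y ∈ M t → KN ι (star x * y))
    (Y : CStarMatrix (Fin k) (Fin k) B) (hY : 0 ≤ Y) {ε : ℝ} (hε : 0 < ε) (hm : 0 < ‖Y‖ - ε) :
    ∃ (C : Fin k → A) (q : ℝ), 1 ≤ q ∧ ‖ip (fun i => ι (C i)) (fun i => ι (C i))‖ ≤ q ∧
      (‖Y‖ - ε) * q ≤ ‖bil Y (fun i => ι (C i)) (fun i => ι (C i))‖ := by
  classical
  set m : ℝ := ‖Y‖ - ε with hmdef
  obtain ⟨F, zz, hzM, hW⟩ := exists_vector' h Y hY hm.le (by linarith : m < ‖Y‖)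
  choose hh hhz using fun s i => h.slice_right s _ _ (hzM s i) (hzM s i)
  set z : Fin k → B := fun i => ∑ s ∈ F, zz s i with hz
  have hιinj : Function.Injective ι := fun a b hab => by rw [← h.E_ι a, hab, h.E_ι]
  have hreflect : ∀ a, 0 ≤ ι a → 0 ≤ a := fun a ha => h.reflect a ha
  have hh0 : ∀ s i, 0 ≤ hh s i := fun s i => hreflect _ (by
    rw [← hhz]
    exact star_mul_self_nonneg _)
  set hs : J → A := fun s => ∑ i, hh s i with hhs
  have hs0 : ∀ s, 0 ≤ hs s := fun s => Finset.sum_nonneg fun i _ => hh0 s i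
  rw [E_ip' h F zz hzM hh hhz] at hW
  have hYs : star Y = Y := by
    set_option backward.isDefEq.respectTransparency false in
    exact (IsSelfAdjoint.of_nonneg hY).star_eq
  set V : A := E (bil Y z z) with hV
  have hVsa : IsSelfAdjoint V := by
    rw [IsSelfAdjoint, hV, ← h.E_star, (isSelfAdjoint_bil Y hYs z).star_eq]
  set W : A := V - m • ∑ s ∈ F, hs s with hWdef
  have hWsa : IsSelfAdjoint W := by
    refine hVsa.sub ?_
    exact (IsSelfAdjoint.all m).smul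
      (IsSelfAdjoint.of_nonneg (Finset.sum_nonneg fun s _ => hs0 s))
  obtain ⟨η, e1, hη, he1, hW1⟩ := excise_pos hWsa hW
  set n : ℝ := (F.card : ℝ) with hn
  have hn0 : 0 ≤ n := Nat.cast_nonneg _
  -- first constants
  set Mz : ℝ := ∑ i, ‖z i‖ with hMz
  have hMz0 : 0 ≤ Mz := by positivity
  set Mzz : ℝ := ∑ s ∈ F, ∑ i, ‖zz s i‖ with hMzz
  have hMzz0 : 0 ≤ Mzz := by positivity
  have hMzzle : ∀ s ∈ F, ∀ i, ‖zz s i‖ ≤ Mzz := by
    intro s hs i
    have h1 : ‖zz s i‖ ≤ ∑ i, ‖zz s i‖ :=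
      Finset.single_le_sum (f := fun i => ‖zz s i‖) (fun i _ => norm_nonneg _) (Finset.mem_univ i)
    have h2 : ∑ i, ‖zz s i‖ ≤ Mzz :=
      Finset.single_le_sum (f := fun s => ∑ i, ‖zz s i‖) (fun s _ => by positivity) hs
    exact h1.trans h2
  set K3 : ℝ := k * k * ‖Y‖ * (2 * Mz + 1) with hK3
  have hK30 : 0 ≤ K3 := by positivity
  obtain ⟨θ, hθ0, hθ1, hθ2⟩ : ∃ θ : ℝ, 0 < θ ∧ (n + 1) * θ ≤ 1 ∧ K3 * ((n + 1) * θ) ≤ η / 4 := by
    refine ⟨min 1 (η / 4 / (K3 + 1)) / (n + 1), by positivity, ?_, ?_⟩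
    · rw [mul_div_cancel₀ _ (by positivity)]
      exact min_le_left _ _
    · rw [mul_div_cancel₀ _ (by positivity)]
      calc K3 * min 1 (η / 4 / (K3 + 1)) ≤ (K3 + 1) * (η / 4 / (K3 + 1)) := by
            refine mul_le_mul (by linarith) (min_le_right _ _) (by positivity) (by linarith)
        _ = η / 4 := by field_simp
  set δ : ℝ := min (η / (2 * (m * n * (k + 1) + 1))) (θ ^ 3 / (Mzz + 1)) with hδ
  have hδ0 : 0 < δ := by positivity
  have hδ1 : m * n * ((k + 1) * δ) ≤ η / 2 := by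
    have h1 : δ ≤ η / (2 * (m * n * (k + 1) + 1)) := min_le_left _ _
    calc m * n * ((k + 1) * δ) = (m * n * (k + 1)) * δ := by ring
      _ ≤ (m * n * (k + 1) + 1) * (η / (2 * (m * n * (k + 1) + 1))) := by
          refine mul_le_mul (by linarith) h1 hδ0.le (by positivity)
      _ = η / 2 := by field_simp
  have hδ2 : Mzz * δ ≤ θ ^ 3 := by
    have h1 : δ ≤ θ ^ 3 / (Mzz + 1) := min_le_right _ _
    calc Mzz * δ ≤ (Mzz + 1) * (θ ^ 3 / (Mzz + 1)) := by
          refine mul_le_mul (by linarith) h1 hδ0.le (by positivity)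
      _ = θ ^ 3 := by field_simp
  obtain ⟨l, e2, he2, he21, hl⟩ := excise_fin (F ×ˢ (Finset.univ : Finset (Fin k)))
    (fun p : J × Fin k => hh p.1 p.2) (fun p => IsSelfAdjoint.of_nonneg (hh0 _ _)) hδ0 he1
  have hl' : ∀ s ∈ F, ∀ i, ∀ d ∈ Dd e2, star d * hh s i * d ≤ l (s, i) • (star d * d) ∧
      (l (s, i) - δ) • (star d * d) ≤ star d * hh s i * d := fun s hsF i d hd =>
    hl (s, i) (Finset.mem_product.2 ⟨hsF, Finset.mem_univ _⟩) d hd
  have hl0 : ∀ s ∈ F, ∀ i, 0 ≤ l (s, i) := by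
    intro s hsF i
    obtain ⟨P, hP, hP0, hPn⟩ := exists_pos he2
    have h1 := (hl' s hsF i P hP).1
    have h2 := (star_left_conjugate_nonneg (hh0 s i) P).trans h1
    refine le_of_smul_nonneg (star_mul_self_nonneg P) (star_mul_self_ne ?_) h2
    rintro rfl
    simp at hPn
  set ν : J → ℝ := fun s => ∑ i, l (s, i) + δ with hν
  have hν0 : ∀ s ∈ F, 0 < ν s := fun s hsF => by
    have : 0 ≤ ∑ i, l (s, i) := Finset.sum_nonneg fun i _ => hl0 s hsF i
    rw [hν]
    linarith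
  set L : ℝ := ∑ s ∈ F, ν s with hL
  have hL0 : 0 ≤ L := Finset.sum_nonneg fun s hsF => (hν0 s hsF).le
  -- sums over the entries
  have hsum1 : ∀ s ∈ F, ∀ d ∈ Dd e2, star d * hs s * d ≤ (∑ i, l (s, i)) • (star d * d) := by
    intro s hsF d hd
    rw [hhs]
    simp only
    rw [Finset.mul_sum, Finset.sum_mul, Finset.sum_smul]
    exact Finset.sum_le_sum fun i _ => (hl' s hsF i d hd).1
  have hsum2 : ∀ s ∈ F, ∀ d ∈ Dd e2,
      (ν s - (k + 1) * δ) • (star d * d) ≤ star d * hs s * d := by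
    intro s hsF d hd
    rw [hhs]
    simp only
    rw [Finset.mul_sum, Finset.sum_mul]
    refine le_trans (le_of_eq ?_) (Finset.sum_le_sum fun i _ => (hl' s hsF i d hd).2)
    rw [← Finset.sum_smul, Finset.sum_sub_distrib, Finset.sum_const, nsmul_eq_mul, hν]
    congr 1
    simp
    ring
  -- lower bound on Dd e2
  have hlow : ∀ d ∈ Dd e2, (m * L + η / 2) • (star d * d) ≤ star d * V * d := by
    intro d hd
    have h1 := hW1 d (he21 d hd)
    have h3 : ∑ s ∈ F, (ν s - (k + 1) * δ) • (star d * d) ≤ ∑ s ∈ F, star d * hs s * d :=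
      Finset.sum_le_sum fun s hsF => hsum2 s hsF d hd
    rw [← Finset.sum_smul, Finset.sum_sub_distrib, Finset.sum_const, nsmul_eq_mul] at h3
    have h4 : star d * V * d = star d * W * d + m • ∑ s ∈ F, star d * hs s * d := by
      rw [hWdef, mul_sub, sub_mul, mul_smul_comm, smul_mul_assoc, Finset.mul_sum, Finset.sum_mul,
        sub_add_cancel]
    rw [h4]
    have h5 := smul_le_smul_of_nonneg_left h3 hm.le
    refine le_trans ?_ (add_le_add h1 h5)
    rw [smul_smul, ← add_smul]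
    refine smul_le_smul_of_nonneg_right ?_ (star_mul_self_nonneg d)
    have : m * (L - n * ((k + 1) * δ)) = m * L - m * n * ((k + 1) * δ) := by ring
    rw [this]
    linarith
  -- the almost isometric elements
  have hwex : ∀ s, ∃ w ∈ M s, s ∈ F → ((∀ d ∈ Dd e2, ‖w * ι d‖ ≤ ‖d‖) ∧
      ∀ d ∈ Dd e2, ∀ d' ∈ Dd e2, 0 ≤ d → ‖d‖ ≤ 1 → ‖d'‖ ≤ 1 → d * d' = d' →
        ∀ i, ‖zz s i * (ι d * star w * w * ι d') - zz s i * ι d'‖ ≤ θ) := by
    intro s
    by_cases hsF : s ∈ F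
    · obtain ⟨w, hw1, hw2, hw3⟩ := exists_w (M s) (zz s) (hzM s) (hh s) (hhz s) (e2 := e2)
        (fun i => l (s, i)) hδ0.le hθ0 (hMzzle s hsF) hδ2 (fun i d hd => hl' s hsF i d hd)
      exact ⟨w, hw1, fun _ => ⟨hw2, hw3⟩⟩
    · exact ⟨0, (M s).zero_mem, fun h => absurd h hsF⟩
  choose w hwM hw using hwex
  -- constants
  set K1 : ℝ := (∑ s ∈ F, ∑ t ∈ F, 1) +
        (∑ s ∈ F, ∑ t ∈ F, (√(ν s))⁻¹ * (√(ν t))⁻¹ * (k * (‖w s‖ * ‖w t‖))) with hK1
  have hK10 : 0 ≤ K1 := by positivity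
  set K2 : ℝ := ∑ s ∈ F, ∑ t ∈ F, √(ν s) * √(ν t) with hK2
  have hK20 : 0 ≤ K2 := by positivity
  set Kr : ℝ := ∑ i, ∑ s ∈ F, ∑ t ∈ F, (√(ν s))⁻¹ * √(ν t) * ‖zz s i‖ with hKr
  have hKr0 : 0 ≤ Kr := by positivity
  set Q : ℝ := m * (K1 * L + (K2 + 1) + K1 * (K2 + 1)) with hQ
  have hQ0 : 0 ≤ Q := by positivity
  obtain ⟨ε', hε'0, hε'1, hε'Q, hε'r⟩ : ∃ ε' : ℝ, 0 < ε' ∧ ε' ≤ 1 ∧ ε' * Q ≤ η / 4 ∧
      Kr * ε' ≤ θ := by
    refine ⟨min (min 1 (η / 4 / (Q + 1))) (θ / (Kr + 1)), by positivity,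
      (min_le_left _ _).trans (min_le_left _ _), ?_, ?_⟩
    · calc min (min 1 (η / 4 / (Q + 1))) (θ / (Kr + 1)) * Q ≤ (η / 4 / (Q + 1)) * (Q + 1) := by
            refine mul_le_mul ((min_le_left _ _).trans (min_le_right _ _)) (by linarith) hQ0
              (by positivity)
        _ = η / 4 := by field_simp
    · calc Kr * min (min 1 (η / 4 / (Q + 1))) (θ / (Kr + 1)) ≤ (Kr + 1) * (θ / (Kr + 1)) := by
            refine mul_le_mul (by linarith) (min_le_right _ _) (by positivity) (by linarith)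
        _ = θ := by field_simp
  -- smallness
  obtain ⟨e3, he3, he32, hsm⟩ := small_fin' (ι := ι) (κ := Option (Fin k) × J × J)
    (Finset.univ ×ˢ ((F ×ˢ F).filter fun p => p.1 ≠ p.2))
    (fun p => match p.1 with
      | none => star (w p.2.1) * w p.2.2
      | some i => star (zz p.2.1 i) * zz p.2.2 i)
    (by
      intro p hp
      rw [Finset.mem_product, Finset.mem_filter] at hp
      obtain ⟨o, s, t⟩ := p
      cases o with
      | none => exact hK s t _ _ hp.2.2 (hwM s) (hwM t)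
      | some i => exact hK s t _ _ hp.2.2 (hzM s i) (hzM t i)) hε'0 he2
  have hmem : ∀ (o : Option (Fin k)) (s t : J), s ∈ F → t ∈ F → s ≠ t →
      ((o, s, t) : Option (Fin k) × J × J) ∈
        (Finset.univ ×ˢ ((F ×ˢ F).filter fun p => p.1 ≠ p.2)) := by
    intro o s t hsF htF hst
    rw [Finset.mem_product, Finset.mem_filter, Finset.mem_product]
    exact ⟨Finset.mem_univ _, ⟨hsF, htF⟩, hst⟩
  obtain ⟨P, hP, hP0, hPn⟩ := exists_pos he3
  obtain ⟨d, d', g, k1, k2, k3, k4, k5, k6, k7, k8, k9, k10, k11⟩ := shrink he3.sa hP hP0 hPn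
  have hdd : d * d' = d' := k8.1
  have hds : star d = d := (IsSelfAdjoint.of_nonneg k6).star_eq
  have H1 : ∀ x ∈ Dd e3, ∀ y ∈ Dd e3, ‖x‖ ≤ 1 → ‖y‖ ≤ 1 → ∀ s ∈ F, ∀ t ∈ F, s ≠ t →
      ‖ι x * star (w s) * w t * ι y‖ ≤ ε' := by
    intro x hx y hy hxn hyn s hsF t htF hst
    have h1 := hsm _ (hmem none s t hsF htF hst) x hx y hy
    simp only at h1
    rw [← mul_assoc (ι x)] at h1
    refine h1.trans ?_
    calc ε' * ‖x‖ * ‖y‖ ≤ ε' * 1 * 1 := by gcongr
      _ = ε' := by ring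
  have H2 : ∀ s ∈ F, ∀ t ∈ F, s ≠ t → ∀ i, ‖ι d * (star (zz s i) * zz t i) * ι d‖ ≤ ε' := by
    intro s hsF t htF hst i
    have h1 := hsm _ (hmem (some i) s t hsF htF hst) d k2 d k2
    simp only at h1
    refine h1.trans ?_
    calc ε' * ‖d‖ * ‖d‖ ≤ ε' * 1 * 1 := by gcongr
      _ = ε' := by ring
  have hup : ∀ s ∈ F, d * (∑ i, hh s i) * d ≤ ν s • (d * d) := by
    intro s hsF
    have h1 := hsum1 s hsF d (he32 d k2)
    rw [hds] at h1
    refine h1.trans ?_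
    refine smul_le_smul_of_nonneg_right (by rw [hν]; linarith) ?_
    have := star_mul_self_nonneg d
    rwa [hds] at this
  have hwd : ∀ x ∈ Dd e3, ‖x‖ ≤ 1 → ∀ s ∈ F, ‖w s * ι x‖ ≤ 1 := fun x hx hx1 s hsF =>
    (((hw s hsF).1 x (he32 x hx))).trans hx1
  have N1 := norm_ip_CB F zz w hh (fun s _ i => hhz s i) ν hν0 d k6 (hwd d k2 k7) hup hε'0.le
    (H1 d k2 d k2 k7 k7) H2
  have N2 := norm_ZB F w ν hν0 d' k10 (hwd d' k9 k11.le) hε'0.le (H1 d' k9 d' k9 k11.le k11.le)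
  have N3 : ∀ i, ‖CB ι F zz w ν d i * ZB ι F w ν d' - z i * ι d'‖ ≤ (n + 1) * θ := by
    intro i
    refine (CB_mul_ZB F zz w ν hν0 d d' hε'0.le (H1 d k2 d' k9 k7 k11.le)
      (fun s hsF i => (hw s hsF).2 d (he32 d k2) d' (he32 d' k9) k6 k7 k11.le hdd i) i).trans ?_
    have h1 : (∑ s ∈ F, ∑ t ∈ F, (√(ν s))⁻¹ * √(ν t) * ‖zz s i‖) * ε' ≤ θ := by
      refine le_trans (mul_le_mul_of_nonneg_right ?_ hε'0.le) hε'r
      exact Finset.single_le_sum (f := fun i => ∑ s ∈ F, ∑ t ∈ F, (√(ν s))⁻¹ * √(ν t) * ‖zz s i‖)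
        (fun i _ => by positivity) (Finset.mem_univ i)
    rw [add_mul, one_mul]
    exact add_le_add le_rfl h1
  -- the column over `A`
  have hCex : ∀ i, ∃ c : A, CB ι F zz w ν d i = ι c := by
    intro i
    choose c hc using fun s => h.slice_left s _ _ (h.right s d _ (hzM s i)) (hwM s)
    refine ⟨∑ s ∈ F, (√(ν s))⁻¹ • c s, ?_⟩
    unfold CB
    rw [map_sum]
    exact Finset.sum_congr rfl fun s _ => by rw [hc, ι_rsmul]
  choose C hC using hCex
  have hCf : (fun i => ι (C i)) = CB ι F zz w ν d := funext fun i => (hC i).symm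
  set Z : B := ZB ι F w ν d' with hZ
  set r : Fin k → B := fun i => ι (C i) * Z - z i * ι d' with hr
  have N3' : ∀ i, ‖r i‖ ≤ (n + 1) * θ := by
    intro i
    rw [hr]
    simp only
    rw [← hC]
    exact N3 i
  set Bn : ℝ := ‖bil Y (fun i => ι (C i)) (fun i => ι (C i))‖ with hBn
  have hBn0 : 0 ≤ Bn := norm_nonneg _
  have hd's : star (ι d') = ι d' := by
    rw [← map_star, (IsSelfAdjoint.of_nonneg k10).star_eq]
  have hιd' : ‖ι d'‖ ≤ 1 := (norm_ι_le ι d').trans k11.le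
  have hzd : ∀ i, ‖z i * ι d'‖ ≤ Mz := by
    intro i
    refine (norm_mul_le _ _).trans ?_
    have h1 : ‖z i‖ ≤ Mz := Finset.single_le_sum (f := fun i => ‖z i‖)
      (fun i _ => norm_nonneg _) (Finset.mem_univ i)
    calc ‖z i‖ * ‖ι d'‖ ≤ Mz * 1 := by gcongr
      _ = Mz := mul_one _
  have D1 : star Z * bil Y (fun i => ι (C i)) (fun i => ι (C i)) * Z =
      ι d' * bil Y z z * ι d' + (bil Y r (fun i => z i * ι d') + bil Y (fun i => z i * ι d') r +
        bil Y r r) := by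
    rw [bil_conj]
    have h1 : (fun i => ι (C i) * Z) = fun i => z i * ι d' + r i := by
      funext i
      rw [hr]
      simp
    rw [h1, bil_add_left, bil_add_right, bil_add_right, ← bil_conj, hd's]
    abel
  set ρ : ℝ := (n + 1) * θ with hρ
  have hρ0 : 0 ≤ ρ := by positivity
  have D2 : ‖bil Y r (fun i => z i * ι d') + bil Y (fun i => z i * ι d') r + bil Y r r‖ ≤
      η / 4 := by
    have a1 := norm_bil_crude Y r (fun i => z i * ι d') (a := ρ) (b := Mz) hρ0 N3' hzd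
    have a2 := norm_bil_crude Y (fun i => z i * ι d') r (a := Mz) (b := ρ) hMz0 hzd N3'
    have a3 := norm_bil_crude Y r r (a := ρ) (b := 1) hρ0 N3' (fun i => (N3' i).trans hθ1)
    refine (norm_add_le _ _).trans ?_
    refine (add_le_add (norm_add_le _ _) le_rfl).trans ?_
    refine (add_le_add (add_le_add a1 a2) a3).trans (le_trans (le_of_eq ?_) hθ2)
    rw [hK3]
    ring
  have D3 : m * L + η / 2 ≤ ‖ι d' * bil Y z z * ι d'‖ := by
    have h1 : E (ι d' * bil Y z z * ι d') = d' * V * d' := h.E_bimod d' d' (bil Y z z)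
    have h2 : IsSelfAdjoint (ι d' * bil Y z z * ι d') := by
      have := (isSelfAdjoint_bil Y hYs z).conjugate (ι d')
      rwa [hd's] at this
    refine le_trans ?_ (h.norm_E_le h2)
    rw [h1]
    have h3 := hlow d' (he32 d' k9)
    have hd'sa : star d' = d' := (IsSelfAdjoint.of_nonneg k10).star_eq
    have hdd0 : 0 ≤ star d' * d' := star_mul_self_nonneg d'
    have h4 : ‖star d' * d'‖ = 1 := by
      rw [CStarRing.norm_star_mul_self, k11, mul_one]
    rw [hd'sa] at h3 h4 hdd0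
    have h5 : 0 ≤ m * L + η / 2 := by positivity
    have h6 := CStarAlgebra.norm_le_norm_of_nonneg_of_le (smul_nonneg h5 hdd0) h3
    rwa [norm_smul, h4, mul_one, Real.norm_eq_abs, abs_of_nonneg h5] at h6
  have D4 : ‖star Z * bil Y (fun i => ι (C i)) (fun i => ι (C i)) * Z‖ ≤
      Bn * (L + K2 * ε') := by
    calc ‖star Z * bil Y (fun i => ι (C i)) (fun i => ι (C i)) * Z‖
        ≤ ‖star Z * bil Y (fun i => ι (C i)) (fun i => ι (C i))‖ * ‖Z‖ := norm_mul_le _ _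
      _ ≤ ‖star Z‖ * Bn * ‖Z‖ := by
          gcongr
          exact norm_mul_le _ _
      _ = Bn * (‖Z‖ * ‖Z‖) := by rw [norm_star]; ring
      _ ≤ Bn * (L + K2 * ε') := by gcongr
  have D5 : m * L + η / 2 ≤ Bn * (L + K2 * ε') + η / 4 := by
    have h1 : ι d' * bil Y z z * ι d' =
        star Z * bil Y (fun i => ι (C i)) (fun i => ι (C i)) * Z -
        (bil Y r (fun i => z i * ι d') + bil Y (fun i => z i * ι d') r + bil Y r r) := by
      rw [D1]; abel
    rw [h1] at D3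
    have := norm_sub_le (star Z * bil Y (fun i => ι (C i)) (fun i => ι (C i)) * Z)
      (bil Y r (fun i => z i * ι d') + bil Y (fun i => z i * ι d') r + bil Y r r)
    linarith
  -- final computation
  have hpos : 0 < L + (K2 + 1) * ε' := by positivity
  have D6 : m * (1 + K1 * ε') ≤ Bn := by
    by_contra hcon
    push Not at hcon
    have h1' : Bn * (L + K2 * ε') < m * (1 + K1 * ε') * (L + (K2 + 1) * ε') := by
      have h2 : Bn * (L + K2 * ε') ≤ Bn * (L + (K2 + 1) * ε') := by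
        refine mul_le_mul_of_nonneg_left ?_ hBn0
        nlinarith
      have h3 : Bn * (L + (K2 + 1) * ε') < m * (1 + K1 * ε') * (L + (K2 + 1) * ε') :=
        mul_lt_mul_of_pos_right hcon hpos
      linarith
    have h4 : m * (1 + K1 * ε') * (L + (K2 + 1) * ε') ≤ m * L + ε' * Q := by
      have h5 : m * (1 + K1 * ε') * (L + (K2 + 1) * ε') =
          m * L + ε' * (m * (K1 * L + (K2 + 1) + K1 * (K2 + 1) * ε')) := by ring
      rw [h5, hQ]
      have h6 : K1 * (K2 + 1) * ε' ≤ K1 * (K2 + 1) := by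
        calc K1 * (K2 + 1) * ε' ≤ K1 * (K2 + 1) * 1 := by gcongr
          _ = K1 * (K2 + 1) := mul_one _
      gcongr
    linarith
  refine ⟨C, 1 + K1 * ε', ?_, ?_, D6⟩
  · have : 0 ≤ K1 * ε' := by positivity
    linarith
  · rw [hCf]
    exact N1

end Pool.Agent.KS6_29.NC
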