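import Pool.Agent.KS6_29.NC.Norm3

/-! # Norming of orthogonally graded inclusions; Fell bundles; crossed products -/

set_option autoImplicit false

open scoped CStarAlgebra ComplexOrder
open Pool.Agent.W661.Nrm

namespace Pool.Agent.KS6_29.NC

universe u v w

section

variable {A B J : Type*} [CStarAlgebra A] [PartialOrder A] [StarOrderedRing A]
  [CStarAlgebra B] [PartialOrder B] [StarOrderedRing B]
  {ι : A →⋆ₐ[ℂ] B} {E : B →L[ℂ] A} {M : J → Submodule ℂ B} {k : ℕ}

/-- the main lemma -/
theorem main_pos' (h : IsOrthGraded ι M E)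
    (hK : ∀ s t x y, s ≠ t → x ∈ M s → y ∈ M t → KN ι (star x * y))
    (Y : CStarMatrix (Fin k) (Fin k) B) (hY : 0 ≤ Y) {ε : ℝ} (hε : 0 < ε) :
    ∃ c : Fin k → A, ‖∑ i, star (c i) * c i‖ ≤ 1 ∧
      ‖Y‖ - ε ≤ ‖bil Y (fun i => ι (c i)) (fun i => ι (c i))‖ := by
  by_cases hm : ‖Y‖ - ε ≤ 0
  · refine ⟨fun _ => 0, ?_, hm.trans (norm_nonneg _)⟩
    simp
  push Not at hm
  obtain ⟨C, q, hq1, N1, D6⟩ := main_aux' h hK Y hY hε hm
  have hq0 : 0 < q := by linarith
  have hsq : (√q)⁻¹ * (√q)⁻¹ = q⁻¹ := by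
    rw [← mul_inv, Real.mul_self_sqrt hq0.le]
  refine ⟨fun i => (√q)⁻¹ • C i, ?_, ?_⟩
  · have h1 : ι (∑ i, star ((√q)⁻¹ • C i) * ((√q)⁻¹ • C i)) =
        q⁻¹ • ip (fun i => ι (C i)) (fun i => ι (C i)) := by
      unfold ip
      rw [map_sum, Finset.smul_sum]
      refine Finset.sum_congr rfl fun i _ => ?_
      rw [star_smul, smul_mul_smul_comm, star_trivial, hsq, ι_rsmul, map_mul, map_star]
    have hiso : ∀ a : A, 0 ≤ a → ‖a‖ ≤ ‖ι a‖ := by
      intro a ha
      have h2 : IsSelfAdjoint (ι a) := by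
        rw [IsSelfAdjoint, ← map_star, (IsSelfAdjoint.of_nonneg ha).star_eq]
      have := h.norm_E_le h2
      rwa [h.E_ι] at this
    refine (hiso _ (Finset.sum_nonneg fun i _ => star_mul_self_nonneg _)).trans ?_
    rw [h1, norm_smul, norm_inv, Real.norm_eq_abs, abs_of_pos hq0]
    rw [inv_mul_le_iff₀ hq0, mul_one]
    exact N1
  · have h1 : bil Y (fun i => ι ((√q)⁻¹ • C i)) (fun i => ι ((√q)⁻¹ • C i)) =
        q⁻¹ • bil Y (fun i => ι (C i)) (fun i => ι (C i)) := by
      unfold bil
      rw [Finset.smul_sum]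
      refine Finset.sum_congr rfl fun i _ => ?_
      rw [Finset.smul_sum]
      refine Finset.sum_congr rfl fun j _ => ?_
      show star (ι ((√q)⁻¹ • C i)) * Y i j * ι ((√q)⁻¹ • C j) =
        q⁻¹ • (star (ι (C i)) * Y i j * ι (C j))
      rw [ι_rsmul, ι_rsmul, star_smul, star_trivial, smul_mul_assoc, smul_mul_smul_comm, hsq]
    rw [h1, norm_smul, norm_inv, Real.norm_eq_abs, abs_of_pos hq0]
    rw [le_inv_mul_iff₀ hq0]
    linarith

/-- **Kishimoto's condition implies norming.** -/
theorem norms_of_KN (h : IsOrthGraded ι M E)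
    (hK : ∀ s t x y, s ≠ t → x ∈ M s → y ∈ M t → KN ι (star x * y)) : Norms ι := by
  intro k hk X
  constructor
  · rintro t ⟨r, c, hr, hc, rfl⟩
    rw [sum_eq_bil]
    refine norm_bil_le X _ _ ?_ ?_
    · rw [ip_ι]
      refine (norm_ι_le ι _).trans ?_
      simpa only [star_star] using hr
    · rw [ip_ι]
      exact (norm_ι_le ι _).trans hc
  · intro b hb
    by_contra hcon
    push Not at hcon
    have hb0 : 0 ≤ b := by
      have := hb ⟨fun _ => 0, fun _ => 0, by simp, by simp, rfl⟩
      exact (norm_nonneg _).trans this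
    set ε : ℝ := (‖X‖ * ‖X‖ - b * b) / 4 with hε
    have hε0 : 0 < ε := by
      have : b * b < ‖X‖ * ‖X‖ := by nlinarith
      rw [hε]
      linarith
    have hYX : 0 ≤ star X * X := by
      set_option backward.isDefEq.respectTransparency false in
      exact star_mul_self_nonneg X
    obtain ⟨c, hc1, hc2⟩ := main_pos' h hK (star X * X) hYX hε0
    rw [CStarRing.norm_star_mul_self, bil_star_mul] at hc2
    set v : Fin k → B := fun l => ∑ j, X l j * ι (c j) with hv
    let j0 : Fin k := ⟨0, hk⟩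
    have hY2 : 0 ≤ col j0 v * star (col j0 v) := by
      set_option backward.isDefEq.respectTransparency false in
      exact mul_star_self_nonneg (col j0 v)
    obtain ⟨c', hc1', hc2'⟩ := main_pos' h hK (col j0 v * star (col j0 v)) hY2 hε0
    have hn : ‖col j0 v * star (col j0 v)‖ = ‖ip v v‖ := by
      rw [CStarRing.norm_self_mul_star, ← sq, norm_col_sq]
    rw [bil_col, hn, CStarRing.norm_self_mul_star] at hc2'
    have hmem := hb ⟨fun i => star (c' i), c, by simpa only [star_star] using hc1', hc1, rfl⟩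
    have h1 : ∑ i, ∑ j, ι (star (c' i)) * X i j * ι (c j) = ip (fun i => ι (c' i)) v := by
      unfold ip
      refine Finset.sum_congr rfl fun i _ => ?_
      rw [hv, Finset.mul_sum]
      refine Finset.sum_congr rfl fun j _ => ?_
      rw [map_star, mul_assoc]
    rw [h1] at hmem
    set q : ℝ := ‖ip (fun i => ι (c' i)) v‖ with hq
    have hq0 : 0 ≤ q := norm_nonneg _
    have h2 : q * q ≤ b * b := mul_self_le_mul_self hq0 hmem
    linarith

/-- a Fell bundle gives an orthogonally graded inclusion -/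
theorem IsReducedFell.orthGraded {G : Type*} [Group G] {M : G → Submodule ℂ B}
    (h : IsReducedFell ι M E) : IsOrthGraded ι M E := by
  have hι : ∀ a, ι a ∈ M 1 := fun a => (h.one _).2 ⟨a, rfl⟩
  have hEb : ∀ a c b, E (ι a * b * ι c) = a * E b * c := by
    intro a c b
    have h1 : IsClosed {b : B | E (ι a * b * ι c) = a * E b * c} := by
      apply isClosed_eq <;> fun_prop
    have h2 : ((⨆ g, M g : Submodule ℂ B) : Set B) ⊆ {b : B | E (ι a * b * ι c) = a * E b * c} := by
      intro b hb
      refine Submodule.iSup_induction M (motive := fun b => E (ι a * b * ι c) = a * E b * c) hb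
        ?_ ?_ ?_
      · intro g x hx
        by_cases hg : g = 1
        · subst hg
          obtain ⟨y, rfl⟩ := (h.one x).1 hx
          rw [← map_mul, ← map_mul, h.E_ι, h.E_ι]
        · have h3 := h.mul _ _ _ _ (h.mul _ _ _ _ (hι a) hx) (hι c)
          rw [one_mul, mul_one] at h3
          rw [h.E_ne g _ hg h3, h.E_ne g _ hg hx, mul_zero, zero_mul]
      · simp
      · intro x y hx hy
        rw [mul_add, add_mul, map_add, hx, hy, map_add, mul_add, add_mul]
    have h3 := h1.closure_subset_iff.2 h2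
    exact h3 (h.dense b)
  exact
    { E_ι := h.E_ι
      E_bimod := hEb
      pos := h.pos
      faithful := h.faithful
      left := fun g a x hx => by
        have := h.mul _ _ _ _ (hι a) hx
        rwa [one_mul] at this
      right := fun g a x hx => by
        have := h.mul _ _ _ _ hx (hι a)
        rwa [mul_one] at this
      slice_left := fun g x y hx hy => by
        have := h.mul _ _ _ _ hx (h.star _ _ hy)
        rw [mul_inv_cancel] at this
        exact (h.one _).1 this
      slice_right := fun g x y hx hy => by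
        have := h.mul _ _ _ _ (h.star _ _ hx) hy
        rw [inv_mul_cancel] at this
        exact (h.one _).1 this
      dense := h.dense
      orth := fun g k x y hgk hx hy => by
        refine h.E_ne (g⁻¹ * k) _ ?_ (h.mul _ _ _ _ (h.star _ _ hx) hy)
        intro h1
        exact hgk (inv_mul_eq_one.1 h1) }

/-- a crossed product is graded by the Fell bundle of the subspaces `A u_g` -/
theorem crossedProduct_fell {G : Type*} [Group G] {α : G →* (A ≃⋆ₐ[ℂ] A)} {u : G →* unitary B}
    (h : IsReducedCrossedProduct α ι u E) :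
    IsReducedFell ι (fun g => LinearMap.range
      ((LinearMap.mulRight ℂ (u g : B)) ∘ₗ (ι : A →ₗ[ℂ] B))) E := by
  have hmem : ∀ (g : G) (x : B), x ∈ LinearMap.range
      ((LinearMap.mulRight ℂ (u g : B)) ∘ₗ (ι : A →ₗ[ℂ] B)) ↔ ∃ a, x = ι a * (u g : B) := by
    intro g x
    rw [LinearMap.mem_range]
    exact ⟨fun ⟨a, ha⟩ => ⟨a, ha.symm⟩, fun ⟨a, ha⟩ => ⟨a, ha.symm⟩⟩
  refine
    { one := fun x => ?_
      mul := fun g k x y hx hy => ?_
      star := fun g x hx => ?_
      dense := ?_
      E_ι := h.coeff_one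
      E_ne := fun g x hg hx => ?_
      pos := h.pos
      faithful := h.faithful }
  · rw [hmem]
    simp only [IsReducedCrossedProduct.u_one, mul_one]
  · rw [hmem] at hx hy ⊢
    obtain ⟨a, rfl⟩ := hx
    obtain ⟨c, rfl⟩ := hy
    refine ⟨a * α g c, ?_⟩
    rw [← IsReducedCrossedProduct.u_mul_u, map_mul, mul_assoc, ← mul_assoc (u g : B), h.u_mul_ι]
    simp only [mul_assoc]
  · rw [hmem] at hx ⊢
    obtain ⟨a, rfl⟩ := hx
    refine ⟨α g⁻¹ (star a), ?_⟩
    rw [star_mul, IsReducedCrossedProduct.star_u, ← map_star, h.u_mul_ι]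
  · refine h.dense.mono ?_
    rintro _ ⟨c, rfl⟩
    refine Submodule.sum_mem _ fun g _ => ?_
    refine Submodule.mem_iSup_of_mem g ?_
    rw [hmem]
    exact ⟨c g, rfl⟩
  · rw [hmem] at hx
    obtain ⟨a, rfl⟩ := hx
    exact h.coeff_ne g a hg

end

variable {A I : Type u} {B : Type v} [CStarAlgebra A] [PartialOrder A]
  [StarOrderedRing A] [CStarAlgebra B] [PartialOrder B] [StarOrderedRing B] [CStarAlgebra I]
  [PartialOrder I] [StarOrderedRing I] {J : Type*}
  {ι : A →⋆ₐ[ℂ] B} {E : B →L[ℂ] A} {M : J → Submodule ℂ B}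

/-- **a unique pseudo-expectation implies norming** -/
theorem norms_of_unique' (h : IsOrthGraded ι M E) (j : A →⋆ₐ[ℂ] I)
    (hj : IsInjectiveEnvelope j) (hu : UniquePseudo ι j) : Norms ι :=
  norms_of_KN h fun s t _ _ hst hx hy =>
    KN_of_unique h.toIsFaithfulCondExp j hj.inj hj.injective
      (fun _ _ h1 h2 => hu.unique h1 h2) (h.star_mul_normalizer hx hy) (h.orth s t _ _ hst hx hy)

end Pool.Agent.KS6_29.NC
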