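import Pool.Agent.KS6_29.NC.Ext

/-! # Compressions of an irreducible representation agree on normalizers, up to a scalar -/

set_option autoImplicit false

open scoped CStarAlgebra ComplexOrder ComplexStarModule InnerProductSpace
open ContinuousLinearMap
open Pool.Agent.W661.Nrm

namespace Pool.Agent.KS6_29.NC

variable {A B : Type*} [CStarAlgebra A] [PartialOrder A] [StarOrderedRing A]
  [CStarAlgebra B] [PartialOrder B] [StarOrderedRing B]
  {ι : A →⋆ₐ[ℂ] B} {E : B →L[ℂ] A}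
  {H : Type*} [NormedAddCommGroup H] [InnerProductSpace ℂ H] [CompleteSpace H]

omit [PartialOrder A] [StarOrderedRing A] in
/-- the projection onto an invariant closed subspace commutes with a star representation -/
lemma proj_comm {K : Type*} [NormedAddCommGroup K] [InnerProductSpace ℂ K]
    (ρ : A → K →L[ℂ] K) (hρ : ∀ a x y, ⟪ρ a x, y⟫_ℂ = ⟪x, ρ (star a) y⟫_ℂ) (S : Submodule ℂ K)
    [S.HasOrthogonalProjection] (hinv : ∀ a, ∀ x ∈ S, ρ a x ∈ S) (a : A) (x : K) :
    S.starProjection (ρ a x) = ρ a (S.starProjection x) := by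
  have h1 : S.starProjection (ρ a (S.starProjection x)) = ρ a (S.starProjection x) := by
    rw [Submodule.starProjection_eq_self_iff]
    exact hinv a _ (Submodule.starProjection_apply_mem S x)
  have h2 : S.starProjection (ρ a (x - S.starProjection x)) = 0 := by
    rw [Submodule.starProjection_apply_eq_zero_iff, Submodule.mem_orthogonal]
    intro z hz
    have h3 := hinv (star a) z hz
    have h5 : x - S.starProjection x ∈ Sᗮ := Submodule.sub_starProjection_mem_orthogonal x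
    have h4 : ⟪ρ (star a) z, x - S.starProjection x⟫_ℂ = 0 :=
      (Submodule.mem_orthogonal _ _).1 h5 _ h3
    rwa [hρ, star_star] at h4
  have h3 : ρ a x = ρ a (S.starProjection x) + ρ a (x - S.starProjection x) := by
    rw [← map_add]
    congr 1
    abel
  rw [h3, map_add, h1, h2, add_zero]

omit [PartialOrder A] [StarOrderedRing A] in
/-- if two vector functionals agree then the vectors are parallel -/
lemma parallel {π : A →⋆ₐ[ℂ] (H →L[ℂ] H)} (hπ : Irr π) {α β γ δ : H} (hγ : γ ≠ 0)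
    (h : ∀ a, ⟪δ, π a α⟫_ℂ = ⟪γ, π a β⟫_ℂ) : ∃ c : ℂ, β = c • α := by
  let Φ : WithLp 2 (H × H) ≃L[ℂ] (H × H) := WithLp.prodContinuousLinearEquiv 2 ℂ H H
  let ρ : A → WithLp 2 (H × H) →L[ℂ] WithLp 2 (H × H) := fun a =>
    (Φ.symm : (H × H) →L[ℂ] WithLp 2 (H × H)) ∘L ((π a).prodMap (π a)) ∘L
      (Φ : WithLp 2 (H × H) →L[ℂ] (H × H))
  have hρa : ∀ a x y, ρ a (WithLp.toLp 2 (x, y)) = WithLp.toLp 2 (π a x, π a y) :=
    fun a x y => rfl
  have hrep : ∀ z : WithLp 2 (H × H), z = WithLp.toLp 2 (z.fst, z.snd) := fun z => rfl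
  have hin : ∀ x y x' y' : H, ⟪(WithLp.toLp 2 (x, y) : WithLp 2 (H × H)), WithLp.toLp 2 (x', y')⟫_ℂ
      = ⟪x, x'⟫_ℂ + ⟪y, y'⟫_ℂ := fun x y x' y' => WithLp.prod_inner_apply _ _
  have hρ : ∀ a x y, ⟪ρ a x, y⟫_ℂ = ⟪x, ρ (star a) y⟫_ℂ := by
    intro a x y
    rw [hrep x, hrep y, hρa, hρa, hin, hin, pi_inner, pi_inner]
  let e : A →ₗ[ℂ] WithLp 2 (H × H) :=
    { toFun := fun a => WithLp.toLp 2 (π a α, π a β)
      map_add' := fun a b => by
        rw [map_add, add_apply, add_apply]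
        rfl
      map_smul' := fun c a => by
        rw [map_smul, smul_apply, smul_apply, RingHom.id_apply]
        rfl }
  have he : ∀ a, e a = WithLp.toLp 2 (π a α, π a β) := fun a => rfl
  set S : Submodule ℂ (WithLp 2 (H × H)) := (LinearMap.range e).topologicalClosure with hS
  have hSc : IsClosed (S : Set (WithLp 2 (H × H))) := Submodule.isClosed_topologicalClosure _
  have : CompleteSpace S := hSc.completeSpace_coe
  have hinv : ∀ a, ∀ x ∈ S, ρ a x ∈ S := by
    intro a x hx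
    have h1 : Set.MapsTo (ρ a) (LinearMap.range e : Set (WithLp 2 (H × H)))
        (LinearMap.range e : Set (WithLp 2 (H × H))) := by
      rintro _ ⟨b, rfl⟩
      refine ⟨a * b, ?_⟩
      rw [he, he, hρa, map_mul]
      rfl
    exact h1.closure (ρ a).continuous hx
  set P := S.starProjection with hP
  have hcomm := proj_comm ρ hρ S hinv
  -- the blocks
  let inl' : H →L[ℂ] WithLp 2 (H × H) :=
    (Φ.symm : (H × H) →L[ℂ] WithLp 2 (H × H)) ∘L ContinuousLinearMap.inl ℂ H H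
  let inr' : H →L[ℂ] WithLp 2 (H × H) :=
    (Φ.symm : (H × H) →L[ℂ] WithLp 2 (H × H)) ∘L ContinuousLinearMap.inr ℂ H H
  let fst' : WithLp 2 (H × H) →L[ℂ] H :=
    ContinuousLinearMap.fst ℂ H H ∘L (Φ : WithLp 2 (H × H) →L[ℂ] (H × H))
  let snd' : WithLp 2 (H × H) →L[ℂ] H :=
    ContinuousLinearMap.snd ℂ H H ∘L (Φ : WithLp 2 (H × H) →L[ℂ] (H × H))
  have hinl : ∀ a x, inl' (π a x) = ρ a (inl' x) := by
    intro a x
    show WithLp.toLp 2 (π a x, (0 : H)) = WithLp.toLp 2 (π a x, π a 0)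
    rw [map_zero]
  have hinr : ∀ a x, inr' (π a x) = ρ a (inr' x) := by
    intro a x
    show WithLp.toLp 2 ((0 : H), π a x) = WithLp.toLp 2 (π a 0, π a x)
    rw [map_zero]
  have hfst : ∀ a z, fst' (ρ a z) = π a (fst' z) := fun a z => rfl
  have hsnd : ∀ a z, snd' (ρ a z) = π a (snd' z) := fun a z => rfl
  obtain ⟨c12, h12⟩ := hπ (fst' ∘L P ∘L inr') (by
    intro a
    ext x
    show fst' (P (inr' (π a x))) = π a (fst' (P (inr' x)))
    rw [hinr, hP, hcomm, hfst])
  obtain ⟨c21, h21⟩ := hπ (snd' ∘L P ∘L inl') (by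
    intro a
    ext x
    show snd' (P (inl' (π a x))) = π a (snd' (P (inl' x)))
    rw [hinl, hP, hcomm, hsnd])
  obtain ⟨c22, h22⟩ := hπ (snd' ∘L P ∘L inr') (by
    intro a
    ext x
    show snd' (P (inr' (π a x))) = π a (snd' (P (inr' x)))
    rw [hinr, hP, hcomm, hsnd])
  have k12 : ∀ x, fst' (P (inr' x)) = c12 • x := fun x => congrArg (fun T : H →L[ℂ] H => T x) h12
  have k21 : ∀ x, snd' (P (inl' x)) = c21 • x := fun x => congrArg (fun T : H →L[ℂ] H => T x) h21
  have k22 : ∀ x, snd' (P (inr' x)) = c22 • x := fun x => congrArg (fun T : H →L[ℂ] H => T x) h22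
  have hsum : ∀ x y : H, (WithLp.toLp 2 (x, y) : WithLp 2 (H × H)) = inl' x + inr' y := by
    intro x y
    show WithLp.toLp 2 (x, y) = WithLp.toLp 2 (x + 0, 0 + y)
    rw [add_zero, zero_add]
  have hsnd2 : ∀ x y : H, snd' (P (WithLp.toLp 2 (x, y))) = c21 • x + c22 • y := by
    intro x y
    rw [hsum, map_add, map_add, k21, k22]
  -- the vector of `S`
  have hmem : (WithLp.toLp 2 (α, β) : WithLp 2 (H × H)) ∈ S := by
    refine Submodule.le_topologicalClosure _ ⟨1, ?_⟩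
    rw [he, map_one]
    rfl
  have hPm : P (WithLp.toLp 2 (α, β)) = WithLp.toLp 2 (α, β) := by
    rw [hP, Submodule.starProjection_eq_self_iff]
    exact hmem
  have e1 : c21 • α + c22 • β = β := by
    rw [← hsnd2, hPm]
    rfl
  -- the orthogonal vector
  have hPo : P (WithLp.toLp 2 (-δ, γ)) = 0 := by
    rw [hP, Submodule.starProjection_apply_eq_zero_iff, hS, Submodule.orthogonal_closure,
      Submodule.mem_orthogonal']
    rintro _ ⟨a, rfl⟩
    rw [he, hin, inner_neg_left, h, neg_add_cancel]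
  have e2 : c22 • γ = c21 • δ := by
    have := hsnd2 (-δ) γ
    rw [hPo, map_zero, smul_neg, eq_comm, neg_add_eq_zero] at this
    exact this.symm
  by_cases hc : c22 = 1
  · exfalso
    -- idempotency
    have h3 : P (P (inr' γ)) = P (inr' γ) := by
      rw [hP, Submodule.starProjection_eq_self_iff]
      exact Submodule.starProjection_apply_mem S _
    have h4 : P (inr' γ) = WithLp.toLp 2 (c12 • γ, c22 • γ) := by
      rw [hrep (P (inr' γ)), ← k12, ← k22]
      rfl
    have h5 : c21 • (c12 • γ) + c22 • (c22 • γ) = c22 • γ := by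
      rw [← hsnd2, ← h4, h3, k22]
    rw [hc, one_smul, one_smul, add_eq_right, smul_smul, smul_eq_zero] at h5
    have h6 : c21 * c12 = 0 := h5.resolve_right hγ
    have h7 : ⟪inl' γ, P (inr' γ)⟫_ℂ = ⟪P (inl' γ), inr' γ⟫_ℂ := by
      rw [hP, Submodule.inner_starProjection_left_eq_right]
    have h8 : ⟪inl' γ, P (inr' γ)⟫_ℂ = c12 * ⟪γ, γ⟫_ℂ := by
      rw [h4]
      have : inl' γ = WithLp.toLp 2 (γ, (0 : H)) := rfl
      rw [this, hin, inner_zero_left, add_zero, inner_smul_right]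
    have h9 : ⟪P (inl' γ), inr' γ⟫_ℂ = starRingEnd ℂ c21 * ⟪γ, γ⟫_ℂ := by
      have h10 : inr' γ = WithLp.toLp 2 ((0 : H), γ) := rfl
      rw [hrep (P (inl' γ)), h10, hin, inner_zero_right, zero_add]
      have h11 : (P (inl' γ)).snd = c21 • γ := k21 γ
      rw [h11, inner_smul_left]
    have h10 : ⟪γ, γ⟫_ℂ ≠ 0 := inner_self_ne_zero.2 hγ
    have h11 : c12 = starRingEnd ℂ c21 := by
      have := h7
      rw [h8, h9] at this
      exact mul_right_cancel₀ h10 this
    rw [h11, Complex.mul_conj] at h6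
    have h12 : c21 = 0 := by
      have : Complex.normSq c21 = 0 := by exact_mod_cast h6
      exact Complex.normSq_eq_zero.1 this
    rw [hc, one_smul, h12, zero_smul] at e2
    exact hγ e2
  · refine ⟨(1 - c22)⁻¹ * c21, ?_⟩
    have h1 : (1 - c22) • β = c21 • α := by
      rw [sub_smul, one_smul, sub_eq_iff_eq_add]
      exact e1.symm
    have h2 : (1 - c22) ≠ 0 := sub_ne_zero.2 (Ne.symm hc)
    rw [mul_smul, ← h1, smul_smul, inv_mul_cancel₀ h2, one_smul]

omit [PartialOrder A] [StarOrderedRing A] [PartialOrder B] [StarOrderedRing B] in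
lemma Comp_ι [PartialOrder B] [StarOrderedRing B] {π : A →⋆ₐ[ℂ] (H →L[ℂ] H)}
    {Θ : B →ₗ[ℂ] (H →L[ℂ] H)} (hΘ : Comp ι π Θ) (a : A) : Θ (ι a) = π a := by
  have := hΘ.left a 1
  rwa [mul_one, hΘ.one, mul_one] at this

omit [PartialOrder A] [StarOrderedRing A] in
/-- a Cauchy-Schwarz inequality -/
lemma Comp_zero {π : A →⋆ₐ[ℂ] (H →L[ℂ] H)} {Θ : B →ₗ[ℂ] (H →L[ℂ] H)} (hΘ : Comp ι π Θ) {y : B}
    (hy : Θ (y * star y) = 0) : Θ y = 0 := by
  have hpos : ∀ (ξ : H) (c : B), 0 ≤ ⟪ξ, Θ (star c * c) ξ⟫_ℂ := by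
    intro ξ c
    have hM : (0 : CStarMatrix (Fin 1) (Fin 1) B) ≤
        star (CStarMatrix.ofMatrix (fun _ _ => c)) * CStarMatrix.ofMatrix (fun _ _ => c) := by
      set_option backward.isDefEq.respectTransparency false in
      exact star_mul_self_nonneg _
    have h1 := hΘ.cp 1 _ hM (fun _ => ξ)
    rw [Fin.sum_univ_one, Fin.sum_univ_one, CStarMatrix.mul_apply, Fin.sum_univ_one] at h1
    exact h1
  have hz : ∀ ξ : H, ⟪ξ, Θ y ξ⟫_ℂ = 0 := by
    intro ξ
    let ψ : B →ₚ[ℂ] ℂ := PositiveLinearMap.mk₀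
      { toFun := fun b => ⟪ξ, Θ b ξ⟫_ℂ
        map_add' := fun a b => by rw [map_add, add_apply, inner_add_right]
        map_smul' := fun c a => by
          rw [map_smul, smul_apply, inner_smul_right, RingHom.id_apply, smul_eq_mul] }
      (by
        intro x hx
        obtain ⟨b, rfl⟩ := (CStarAlgebra.nonneg_iff_eq_star_mul_self).1 hx
        exact hpos ξ b)
    have hψ : ∀ b, ψ b = ⟪ξ, Θ b ξ⟫_ℂ := fun b => rfl
    set ρ := ψ.gnsStarAlgHom with hρ
    have h1 : ρ (star y) (om ψ) = 0 := by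
      rw [← inner_self_eq_zero (𝕜 := ℂ), pi_inner, star_star, ← mul_apply_eq_comp, ← map_mul,
        gns_inner, hψ, hy, zero_apply, inner_zero_right]
    rw [← hψ, ← gns_inner]
    have h2 : ⟪om ψ, ψ.gnsStarAlgHom y (om ψ)⟫_ℂ = ⟪ψ.gnsStarAlgHom (star y) (om ψ), om ψ⟫_ℂ := by
      rw [pi_inner, star_star]
    rw [h2, ← hρ, h1, inner_zero_left]
  have h3 : (Θ y : H →ₗ[ℂ] H) = 0 := by
    rw [← inner_map_self_eq_zero]
    intro x
    have := hz x
    rw [← inner_conj_symm]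
    show starRingEnd ℂ ⟪x, Θ y x⟫_ℂ = 0
    rw [this, map_zero]
  ext x
  exact congrArg (fun T : H →ₗ[ℂ] H => T x) h3

/-- the basic identity -/
lemma slice_id {π : A →⋆ₐ[ℂ] (H →L[ℂ] H)} {Θ1 Θ0 : B →ₗ[ℂ] (H →L[ℂ] H)} (hΘ1 : Comp ι π Θ1)
    (hΘ0 : Comp ι π Θ0) {y : B} (hy : IsNormalizer ι y) {a b e cb ce : A}
    (hcb : y * ι b * star y = ι cb) (hce : y * ι e * star y = ι ce) :
    Θ1 y * π b * star (Θ0 y) * π a * π ce = π cb * π a * (Θ1 y * π e * star (Θ0 y)) := by
  obtain ⟨d, hd⟩ := hy.2 a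
  have h1 : star (Θ0 y) * π a * π ce = π (d * e) * star (Θ0 y) := by
    have h2 : ι (star ce * star a) * y = y * ι (star e * star d) := by
      have e1 : ι (star ce) = y * ι (star e) * star y := by
        rw [map_star, ← hce, star_mul, star_mul, star_star, ← map_star, mul_assoc]
      have e2 : ι (star d) = star y * ι (star a) * y := by
        rw [map_star, ← hd, star_mul, star_mul, star_star, ← map_star, mul_assoc]
      rw [map_mul, e1, map_mul, e2]
      simp only [mul_assoc]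
    have h3 : π (star ce * star a) * Θ0 y = Θ0 y * π (star e * star d) := by
      rw [← hΘ0.left, h2, hΘ0.right]
    have h4 := congrArg star h3
    rw [star_mul, star_mul, ← map_star π (star ce * star a), ← map_star π (star e * star d),
      star_mul, star_mul, star_star, star_star, star_star, star_star, map_mul π a,
      ← mul_assoc] at h4
    exact h4
  have h5 : Θ1 y * π (b * (d * e)) = π cb * π a * (Θ1 y * π e) := by
    have h6 : y * ι (b * (d * e)) = ι (cb * a) * (y * ι e) := by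
      rw [map_mul, map_mul, ← hd, map_mul, ← hcb]
      simp only [mul_assoc]
    rw [← hΘ1.right, h6, hΘ1.left, hΘ1.right, map_mul]
  calc Θ1 y * π b * star (Θ0 y) * π a * π ce
      = Θ1 y * π b * (star (Θ0 y) * π a * π ce) := by simp only [mul_assoc]
    _ = Θ1 y * π (b * (d * e)) * star (Θ0 y) := by
        rw [h1, map_mul π b]
        simp only [mul_assoc]
    _ = π cb * π a * (Θ1 y * π e * star (Θ0 y)) := by
        rw [h5]
        simp only [mul_assoc]

omit [CompleteSpace H] in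
lemma eq_of_cyclic {π : A → H →L[ℂ] H} {ξ : H} (hξ : DenseRange fun a => π a ξ)
    {T1 T2 : H →L[ℂ] H} (h : ∀ a, T1 (π a ξ) = T2 (π a ξ)) : T1 = T2 := by
  ext x
  refine hξ.induction_on (p := fun x => T1 x = T2 x) x ?_ h
  exact isClosed_eq T1.continuous T2.continuous

/-- the sandwiched operators are proportional to the representation -/
lemma slice_scalar {π : A →⋆ₐ[ℂ] (H →L[ℂ] H)} (hπ : Irr π) {Θ1 Θ0 : B →ₗ[ℂ] (H →L[ℂ] H)}
    (hΘ1 : Comp ι π Θ1) (hΘ0 : Comp ι π Θ0) {y : B} (hy : IsNormalizer ι y) {c1 : A}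
    (hc1 : y * star y = ι c1) (hP : π c1 ≠ 0) :
    ∃ κ : ℂ, ∀ b cb : A, y * ι b * star y = ι cb →
      Θ1 y * π b * star (Θ0 y) = κ • π cb := by
  have hc1' : y * ι 1 * star y = ι c1 := by rw [map_one, mul_one, hc1]
  set T : H →L[ℂ] H := Θ1 y * star (Θ0 y) with hT
  have hT1 : Θ1 y * π 1 * star (Θ0 y) = T := by rw [map_one, mul_one]
  have hrel : ∀ a, T * π a * π c1 = π c1 * π a * T := by
    intro a
    have := slice_id hΘ1 hΘ0 hy (a := a) hc1' hc1'
    rwa [hT1] at this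
  obtain ⟨α0, hα0⟩ : ∃ α0, π c1 α0 ≠ 0 := by
    by_contra hcon
    push Not at hcon
    exact hP (by ext x; exact hcon x)
  have hPs : star (π c1) ≠ 0 := fun h0 => hP (by rw [← star_star (π c1), h0, star_zero])
  obtain ⟨β0, hβ0⟩ : ∃ β0, star (π c1) β0 ≠ 0 := by
    by_contra hcon
    push Not at hcon
    exact hPs (by ext x; exact hcon x)
  obtain ⟨κ, hκ⟩ := parallel hπ (α := π c1 α0) (β := T α0) (γ := star (π c1) β0)
    (δ := star T β0) hβ0 (by
      intro a
      rw [star_eq_adjoint, star_eq_adjoint, adjoint_inner_left, adjoint_inner_left]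
      have := congrArg (fun S : H →L[ℂ] H => ⟪β0, S α0⟫_ℂ) (hrel a)
      exact this)
  refine ⟨κ, fun b cb hcb => ?_⟩
  refine eq_of_cyclic (cyclic_of_irr hπ hα0) fun a => ?_
  have h1 := slice_id hΘ1 hΘ0 hy (a := a) hcb hc1'
  rw [hT1] at h1
  have h2 := congrArg (fun S : H →L[ℂ] H => S α0) h1
  have h3 : (Θ1 y * π b * star (Θ0 y)) (π a (π c1 α0)) = π cb (π a (T α0)) := h2
  rw [h3, hκ, map_smul, map_smul]
  rfl

/-- **two compressions of an irreducible representation are proportional on a normalizer** -/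
theorem proportional {π : A →⋆ₐ[ℂ] (H →L[ℂ] H)} (hπ : Irr π)
    {Θ Θ0 : B →ₗ[ℂ] (H →L[ℂ] H)} (hΘ : Comp ι π Θ) (hΘ0 : Comp ι π Θ0) {y : B}
    (hy : IsNormalizer ι y) (h0 : Θ0 y ≠ 0) : ∃ c : ℂ, Θ y = c • Θ0 y := by
  obtain ⟨c1, hc1⟩ := hy.1 1
  have hc1' : y * star y = ι c1 := by rw [← hc1, map_one, mul_one]
  have hP : π c1 ≠ 0 := by
    intro hP0
    apply h0
    refine Comp_zero hΘ0 ?_
    rw [hc1', Comp_ι hΘ0, hP0]
  obtain ⟨κ, hκ⟩ := slice_scalar hπ hΘ hΘ0 hy hc1' hP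
  obtain ⟨κ0, hκ0⟩ := slice_scalar hπ hΘ0 hΘ0 hy hc1' hP
  have h1 : κ0 ≠ 0 := by
    rintro rfl
    have := hκ0 1 c1 hc1
    rw [map_one, mul_one, zero_smul] at this
    exact h0 ((CStarRing.mul_star_self_eq_zero_iff _).1 this)
  obtain ⟨v, hv⟩ : ∃ v, star (Θ0 y) v ≠ 0 := by
    by_contra hcon
    push Not at hcon
    have h2 : star (Θ0 y) = 0 := by ext x; exact hcon x
    exact h0 (by rw [← star_star (Θ0 y), h2, star_zero])
  have h2 : κ0 • Θ y = κ • Θ0 y := by
    refine eq_of_cyclic (cyclic_of_irr hπ hv) fun b => ?_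
    obtain ⟨cb, hcb⟩ := hy.1 b
    have h3 := hκ b cb hcb
    have h4 := hκ0 b cb hcb
    have h5 : κ0 • (Θ y * π b * star (Θ0 y)) = κ • (Θ0 y * π b * star (Θ0 y)) := by
      rw [h3, h4, smul_smul, smul_smul, mul_comm]
    have h6 := congrArg (fun S : H →L[ℂ] H => S v) h5
    exact h6
  refine ⟨κ0⁻¹ * κ, ?_⟩
  rw [mul_smul, ← h2, smul_smul, inv_mul_cancel₀ h1, one_smul]

end Pool.Agent.KS6_29.NC
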